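import Pool.Agent.P.MP_a0f0ad_al.Fi.I.Iface

/-! Toolbox of chapter I: boxes, cells, windows. -/

namespace Pool.Agent.P.MP_a0f0ad_al.Fi

open Finset MeasureTheory Metric

noncomputable section

variable {d : ℕ}

instance instCountableG : Countable (G d) :=
  Function.Injective.countable (f := fun g : G d => (g.y, g.a)) fun _ _ h =>
    G.ext (congrArg Prod.fst h) (congrArg Prod.snd h)

instance instMeasG : MeasurableSpace (G d) := ⊤

instance instDiscG : DiscreteMeasurableSpace (G d) := ⟨fun _ => trivial⟩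

/-- the growth degree -/
def DD (d : ℕ) : ℕ := 1 + ∑ j : Fin d, ((j : ℕ) + 1)

/-- the group element at the point `z` of the window at `u` -/
def win (T : ℝ) (u z : E d) : G d := gam T (u + T⁻¹ • z)

/-- the mean defect over the window of side `R` -/
def Ew (S : Finset (G d)) (N : E d → ℝ) (T R : ℝ) (u : E d) : ℝ :=
  (∫ z in cube d R, (len S (win T u z) : ℝ)) / R ^ (d + 1) - T * N u

/-- the summed growth function -/
def BB (S : Finset (G d)) (n : ℕ) : ℝ := ∑ i ∈ range n, (({g : G d | len S g ≤ i}.ncard : ℕ) : ℝ)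

namespace IB

theorem meas_gam (T : ℝ) : Measurable (gam T : E d → G d) := by
  refine measurable_to_countable' fun g => ?_
  have : gam T ⁻¹' {g} = {u : E d | ⌊T * u.1⌋ = g.a} ∩
      ⋂ j : Fin d, {u : E d | ⌊T ^ ((j : ℕ) + 1) * u.2 j⌋ = g.y j} := by
    ext u
    simp only [Set.mem_preimage, Set.mem_singleton_iff, G.ext_iff, gam, funext_iff,
      Set.mem_inter_iff, Set.mem_ofPred_eq, Set.mem_iInter]
    exact and_comm
  rw [this]
  refine MeasurableSet.inter ?_ (MeasurableSet.iInter fun j => ?_)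
  · exact measurableSet_eq_fun (by fun_prop) measurable_const
  · exact measurableSet_eq_fun (by fun_prop) measurable_const

/-- joint measurability in `(u, z)` -/
theorem meas_win2 (T : ℝ) : Measurable fun x : E d × E d => win T x.1 x.2 :=
  (meas_gam T).comp (by fun_prop)

theorem meas_win (T : ℝ) (u : E d) : Measurable (win T u) :=
  (meas_gam T).comp (by fun_prop)

theorem meas_win' (T : ℝ) (z : E d) : Measurable fun u => win T u z :=
  (meas_gam T).comp (by fun_prop)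

theorem meas_G {α : Type} [MeasurableSpace α] (f : G d → α) : Measurable f := measurable_from_top

theorem win_a {T : ℝ} (hT : T ≠ 0) (u z : E d) : (win T u z).a = ⌊T * u.1 + z.1⌋ := by
  simp only [win, gam, Prod.fst_add, Prod.smul_fst, smul_eq_mul]
  congr 1
  field_simp

theorem win_y {T : ℝ} (hT : T ≠ 0) (u z : E d) (j : Fin d) :
    (win T u z).y j = ⌊T ^ (j : ℕ) * (T * u.2 j + z.2 j)⌋ := by
  simp only [win, gam, Prod.snd_add, Prod.smul_snd, Pi.add_apply, Pi.smul_apply, smul_eq_mul]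
  congr 1
  field_simp
  ring

theorem norm_le_iff {x : E d} {r : ℝ} : ‖x‖ ≤ r ↔ |x.1| ≤ r ∧ ∀ j, |x.2 j| ≤ r := by
  rw [Prod.norm_def, max_le_iff, Real.norm_eq_abs]
  refine and_congr_right fun h => ?_
  rw [pi_norm_le_iff_of_nonneg ((abs_nonneg _).trans h)]
  rfl

theorem nx_win {T : ℝ} (hT : 1 ≤ T) (u z : E d) : ‖nx T (win T u z) - T • u - z‖ ≤ 1 := by
  have h0 : 0 < T := by linarith
  rw [norm_le_iff]
  refine ⟨?_, fun j => ?_⟩
  · simp only [nx, win_a h0.ne', Prod.fst_sub, Prod.smul_fst, smul_eq_mul]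
    have := Int.floor_le (T * u.1 + z.1)
    have := Int.lt_floor_add_one (T * u.1 + z.1)
    rw [abs_le]; constructor <;> linarith
  · simp only [nx, win_y h0.ne', Prod.snd_sub, Prod.smul_snd, Pi.sub_apply, Pi.smul_apply,
      smul_eq_mul]
    have h1 := Int.floor_le (T ^ (j : ℕ) * (T * u.2 j + z.2 j))
    have h2 := Int.lt_floor_add_one (T ^ (j : ℕ) * (T * u.2 j + z.2 j))
    have h3 : 1 ≤ T ^ (j : ℕ) := one_le_pow₀ hT
    have h4 : 0 < T ^ (j : ℕ) := by positivity
    rw [sub_sub, abs_le, le_sub_iff_add_le, sub_le_iff_le_add, le_div_iff₀ h4, div_le_iff₀ h4]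
    constructor <;> nlinarith

theorem nx_win' {T : ℝ} (hT : 1 ≤ T) (u z : E d) : ‖nx T (win T u z) - T • u‖ ≤ ‖z‖ + 1 := by
  have := norm_add_le (nx T (win T u z) - T • u - z) z
  rw [sub_add_cancel] at this
  linarith [nx_win hT u z]

theorem abs_pair_le (p x : E d) : |pair p x| ≤ (d + 1) * ‖p‖ * ‖x‖ := by
  have h1 := norm_le_iff.1 (le_refl ‖p‖)
  have h2 := norm_le_iff.1 (le_refl ‖x‖)
  have h3 : |dot p.2 x.2| ≤ ∑ _j : Fin d, ‖p‖ * ‖x‖ :=
    (abs_sum_le_sum_abs _ _).trans (sum_le_sum fun j _ => by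
      rw [abs_mul]; exact mul_le_mul (h1.2 j) (h2.2 j) (abs_nonneg _) (norm_nonneg _))
  have h4 : |p.1 * x.1| ≤ ‖p‖ * ‖x‖ := by
    rw [abs_mul]; exact mul_le_mul h1.1 h2.1 (abs_nonneg _) (norm_nonneg _)
  simp only [sum_const, card_univ, Fintype.card_fin, nsmul_eq_mul] at h3
  have := abs_add_le (p.1 * x.1) (dot p.2 x.2)
  unfold pair
  linarith

theorem pair_add (p x y : E d) : pair p (x + y) = pair p x + pair p y := by
  simp only [pair, dot, Prod.fst_add, Prod.snd_add, Pi.add_apply, mul_add, sum_add_distrib]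
  ring

theorem pair_sub (p x y : E d) : pair p (x - y) = pair p x - pair p y := by
  simp only [pair, dot, Prod.fst_sub, Prod.snd_sub, Pi.sub_apply, mul_sub, sum_sub_distrib]
  ring

theorem box_eq (s : Set ℝ) (t : Fin d → Set ℝ) :
    {z : E d | z.1 ∈ s ∧ ∀ j, z.2 j ∈ t j} = s ×ˢ Set.univ.pi t := by
  ext z; simp

theorem vol_box (s : Set ℝ) (t : Fin d → Set ℝ) :
    volume {z : E d | z.1 ∈ s ∧ ∀ j, z.2 j ∈ t j} = volume s * ∏ j, volume (t j) := by
  rw [box_eq, Measure.volume_eq_prod, Measure.prod_prod, volume_pi_pi]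

theorem meas_box {s : Set ℝ} {t : Fin d → Set ℝ} (hs : MeasurableSet s)
    (ht : ∀ j, MeasurableSet (t j)) : MeasurableSet {z : E d | z.1 ∈ s ∧ ∀ j, z.2 j ∈ t j} := by
  rw [box_eq]; exact hs.prod (MeasurableSet.univ_pi ht)

theorem meas_cube (R : ℝ) : MeasurableSet (cube d R) :=
  meas_box measurableSet_Ico fun _ => measurableSet_Ico

theorem vol_cube {R : ℝ} (hR : 0 ≤ R) : volume (cube d R) = ENNReal.ofReal (R ^ (d + 1)) := by
  rw [cube, vol_box]
  simp only [Real.volume_Ico, sub_zero, prod_const, card_univ, Fintype.card_fin]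
  rw [ENNReal.ofReal_pow hR, pow_succ']

theorem real_cube {R : ℝ} (hR : 0 ≤ R) : volume.real (cube d R) = R ^ (d + 1) := by
  rw [Measure.real, vol_cube hR, ENNReal.toReal_ofReal (by positivity)]

theorem fin_cube (R : ℝ) : IsFiniteMeasure (volume.restrict (cube d R)) := by
  refine isFiniteMeasure_restrict.2 ?_
  rw [cube, vol_box]
  simp only [Real.volume_Ico]
  exact ENNReal.mul_ne_top ENNReal.ofReal_ne_top
    (ENNReal.prod_ne_top fun _ _ => ENNReal.ofReal_ne_top)

theorem norm_cube {R : ℝ} {z : E d} (hz : z ∈ cube d R) : ‖z‖ ≤ R :=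
  norm_le_iff.2 ⟨by rw [abs_of_nonneg hz.1.1]; exact hz.1.2.le,
    fun j => by rw [abs_of_nonneg (hz.2 j).1]; exact (hz.2 j).2.le⟩

theorem vol_floor {s : ℝ} (hs : 0 < s) (x : ℝ) (n : ℤ) :
    volume {t : ℝ | ⌊s * (x + t)⌋ = n} = ENNReal.ofReal s⁻¹ := by
  have : {t : ℝ | ⌊s * (x + t)⌋ = n} = Set.Ico (n / s - x) ((n + 1) / s - x) := by
    ext t
    simp only [Set.mem_ofPred_eq, Int.floor_eq_iff, Set.mem_Ico, sub_le_iff_le_add,
      lt_sub_iff_add_lt, div_le_iff₀ hs, lt_div_iff₀ hs]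
    constructor <;> rintro ⟨a, b⟩ <;> constructor <;> linarith
  rw [this, Real.volume_Ico]
  congr 1
  field_simp
  ring

/-- the volume of a cell of the window -/
theorem vol_win {T : ℝ} (hT : 0 < T) (u : E d) (g : G d) :
    volume {z | win T u z = g} = ∏ j : Fin d, ENNReal.ofReal (T ^ (j : ℕ))⁻¹ := by
  have : {z | win T u z = g} = {z : E d | z.1 ∈ {t : ℝ | ⌊1 * (T * u.1 + t)⌋ = g.a} ∧
      ∀ j : Fin d, z.2 j ∈ {t : ℝ | ⌊T ^ (j : ℕ) * (T * u.2 j + t)⌋ = g.y j}} := by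
    ext z
    simp only [Set.mem_ofPred_eq, G.ext_iff, funext_iff, win_a hT.ne', win_y hT.ne', one_mul]
    exact and_comm
  rw [this, vol_box, vol_floor one_pos]
  simp only [vol_floor (pow_pos hT _), inv_one, ENNReal.ofReal_one, one_mul]

/-- the volume of a cell -/
theorem vol_gam {T : ℝ} (hT : 0 < T) (g : G d) :
    volume {u | gam T u = g} = ENNReal.ofReal (T ^ DD d)⁻¹ := by
  have : {u | gam T u = g} = {z : E d | z.1 ∈ {t : ℝ | ⌊T * (0 + t)⌋ = g.a} ∧
      ∀ j : Fin d, z.2 j ∈ {t : ℝ | ⌊T ^ ((j : ℕ) + 1) * (0 + t)⌋ = g.y j}} := by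
    ext z
    simp only [Set.mem_ofPred_eq, G.ext_iff, funext_iff, gam, zero_add]
    exact and_comm
  rw [this, vol_box, vol_floor hT]
  simp only [vol_floor (pow_pos hT _)]
  rw [← ENNReal.ofReal_prod_of_nonneg (fun _ _ => by positivity),
    ← ENNReal.ofReal_mul (by positivity), DD, pow_add, pow_one, ← prod_pow_eq_pow_sum, mul_inv,
    prod_inv_distrib]

/-- only finitely many elements are near a point -/
theorem finite_near {T : ℝ} (hT : 0 < T) (x : E d) (r : ℝ) :
    {g : G d | ‖nx T g - x‖ ≤ r}.Finite := by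
  have hf : (Set.univ.pi (fun j : Fin d => Set.Icc ⌊T ^ (j : ℕ) * (x.2 j - r)⌋
      ⌈T ^ (j : ℕ) * (x.2 j + r)⌉) ×ˢ Set.Icc ⌊x.1 - r⌋ ⌈x.1 + r⌉).Finite :=
    (Set.Finite.pi fun _ => Set.finite_Icc _ _).prod (Set.finite_Icc _ _)
  refine (hf.preimage (f := fun g : G d => (g.y, g.a)) (Set.injOn_of_injective fun _ _ h =>
    G.ext (congrArg Prod.fst h) (congrArg Prod.snd h))).subset fun g hg => ?_
  obtain ⟨h1, h2⟩ := norm_le_iff.1 hg
  simp only [nx, Prod.fst_sub, Prod.snd_sub, Pi.sub_apply, abs_le] at h1 h2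
  refine ⟨fun j _ => ⟨?_, ?_⟩, ?_, ?_⟩
  · have h4 : 0 < T ^ (j : ℕ) := by positivity
    have := (h2 j).1
    rw [le_sub_iff_add_le, le_div_iff₀ h4] at this
    exact Int.floor_le_iff.2 (by linarith)
  · have h4 : 0 < T ^ (j : ℕ) := by positivity
    have := (h2 j).2
    rw [sub_le_iff_le_add, div_le_iff₀ h4] at this
    exact Int.le_ceil_iff.2 (by linarith)
  · exact Int.floor_le_iff.2 (by linarith [h1.1])
  · exact Int.le_ceil_iff.2 (by linarith [h1.2])

/-- every function on the group is bounded near a point -/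
theorem bdd_near {T : ℝ} (hT : 0 < T) (f : G d → ℝ) (x : E d) (r : ℝ) :
    ∃ M, ∀ g : G d, ‖nx T g - x‖ ≤ r → |f g| ≤ M := by
  obtain ⟨M, hM⟩ := ((finite_near hT x r).image fun g => |f g|).bddAbove
  exact ⟨M, fun g hg => hM ⟨g, hg, rfl⟩⟩

/-- uniform bound for `u` and `z` in bounded sets -/
theorem bdd_win {T : ℝ} (hT : 1 ≤ T) (f : G d → ℝ) (L r : ℝ) :
    ∃ M, ∀ u z : E d, ‖u‖ ≤ L → ‖z‖ ≤ r → |f (win T u z)| ≤ M := by
  obtain ⟨M, hM⟩ := bdd_near (by linarith : 0 < T) f 0 (r + 1 + T * L)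
  refine ⟨M, fun u z hu hz => hM _ ?_⟩
  have h1 := norm_add_le (nx T (win T u z) - T • u) (T • u)
  rw [sub_add_cancel, norm_smul, Real.norm_of_nonneg (by linarith)] at h1
  have := nx_win' hT u z
  rw [sub_zero]
  nlinarith

theorem int_win {T : ℝ} (hT : 1 ≤ T) (f : G d → ℝ) (u : E d) {s : Set (E d)}
    (hs : MeasurableSet s) {r : ℝ} (hr : ∀ z ∈ s, ‖z‖ ≤ r) :
    IntegrableOn (fun z => f (win T u z)) s := by
  obtain ⟨M, hM⟩ := bdd_win hT f ‖u‖ r
  refine Measure.integrableOn_of_bounded (M := M) ?_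
    ((meas_G f).comp (meas_win T u)).aestronglyMeasurable
    ((ae_restrict_iff' hs).2 (Filter.Eventually.of_forall fun z hz => hM u z le_rfl (hr z hz)))
  exact ((measure_mono fun z hz => mem_closedBall_zero_iff.2 (hr z hz)).trans_lt
    (isCompact_closedBall (0 : E d) r).measure_lt_top).ne

theorem int_cube {T : ℝ} (hT : 1 ≤ T) (f : G d → ℝ) (u : E d) (R : ℝ) :
    IntegrableOn (fun z => f (win T u z)) (cube d R) :=
  int_win hT f u (meas_cube R) fun _ => norm_cube

/-- a word of minimal length -/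
theorem exists_word {S : Finset (G d)} (hS : Sym S) (g : G d) :
    ∃ w : List (G d), Wd S w ∧ w.length = len S g ∧ w.prod = g := by
  have : ∃ w : List (G d), Wd S w ∧ w.prod = g := by
    have hg : g ∈ Subgroup.closure (S : Set (G d)) := by rw [hS.2.2]; trivial
    induction hg using Subgroup.closure_induction with
    | mem x hx => exact ⟨[x], by simpa [Wd] using hx, by simp⟩
    | one => exact ⟨[], by simp [Wd], rfl⟩
    | mul x y _ _ hx hy =>
      obtain ⟨a, ha, rfl⟩ := hx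
      obtain ⟨b, hb, rfl⟩ := hy
      exact ⟨a ++ b, fun s hs => (List.mem_append.1 hs).elim (ha s) (hb s), List.prod_append⟩
    | inv x _ hx =>
      obtain ⟨a, ha, rfl⟩ := hx
      refine ⟨(a.map fun s => s⁻¹).reverse, fun s hs => ?_, (List.prod_inv_reverse a).symm⟩
      obtain ⟨t, ht, rfl⟩ := List.mem_map.1 (List.mem_reverse.1 hs)
      exact hS.2.1 t (ha t ht)
  obtain ⟨w, h1, h2⟩ := this
  exact Nat.sInf_mem (s := {n | ∃ w : List (G d), Wd S w ∧ w.length = n ∧ w.prod = g})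
    ⟨_, w, h1, rfl, h2⟩

end IB

end

end Pool.Agent.P.MP_a0f0ad_al.Fi
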