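import Pool.Agent.P.MP_a0f0ad_al.Fi.I.Iface

/-! Step GRW of the filiform project. -/

namespace Pool.Agent.P.MP_a0f0ad_al.Fi

open Finset MeasureTheory Metric

namespace GrwA

theorem sum_le (d j : ℕ) {x : ℝ} (hx : 0 ≤ x) :
    ∑ i : Fin d, ((j.choose i : ℕ) : ℝ) * x ^ (j - (i : ℕ)) ≤ (1 + x) ^ j := by
  rw [Fin.sum_univ_eq_sum_range (fun i => ((j.choose i : ℕ) : ℝ) * x ^ (j - i)), add_pow]
  calc ∑ i ∈ range d, ((j.choose i : ℕ) : ℝ) * x ^ (j - i)
      ≤ ∑ i ∈ range (d + (j + 1)), ((j.choose i : ℕ) : ℝ) * x ^ (j - i) :=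
        sum_le_sum_of_subset_of_nonneg (range_subset_range.2 (by omega)) fun i _ _ => by positivity
    _ = ∑ i ∈ range (j + 1), ((j.choose i : ℕ) : ℝ) * x ^ (j - i) := by
        refine (sum_subset (range_subset_range.2 (by omega)) fun i _ hi => ?_).symm
        rw [Nat.choose_eq_zero_of_lt (by simpa using hi), Nat.cast_zero, zero_mul]
    _ = _ := sum_congr rfl fun i _ => by ring

theorem sh_le {d : ℕ} (x : ℤ) (y : Fin d → ℤ) {B : ℝ} (hB : 0 ≤ B) (hy : ∀ i, |(y i : ℝ)| ≤ B)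
    (j : Fin d) : |(sh x y j : ℝ)| ≤ B * (1 + |(x : ℝ)|) ^ (j : ℕ) := by
  refine le_trans ?_ (mul_le_mul_of_nonneg_left (sum_le d j (abs_nonneg (x : ℝ))) hB)
  rw [sh, mul_sum]
  push_cast
  refine (abs_sum_le_sum_abs _ _).trans (sum_le_sum fun i _ => ?_)
  rw [abs_mul, abs_mul, abs_pow, Nat.abs_cast, mul_comm B]
  exact mul_le_mul_of_nonneg_left (hy i) (by positivity)

theorem main {d : ℕ} {B : ℝ} (hB : 0 ≤ B) (w : List (G d))
    (hw : ∀ s ∈ w, |(s.a : ℝ)| ≤ B ∧ ∀ i, |(s.y i : ℝ)| ≤ B) :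
    |(w.prod.a : ℝ)| ≤ B * w.length ∧
      ∀ j : Fin d, |(w.prod.y j : ℝ)| ≤ w.length * (B * (1 + B * w.length) ^ (j : ℕ)) := by
  induction w using List.reverseRecOn with
  | nil => simp
  | append_singleton w s ih =>
    obtain ⟨h1, h2⟩ := ih fun t ht => hw t (List.mem_append_left _ ht)
    obtain ⟨h3, h4⟩ := hw s (by simp)
    rw [List.prod_append, List.prod_singleton, List.length_append, List.length_singleton,
      G.mul_a, G.mul_y]
    push_cast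
    refine ⟨(abs_add_le _ _).trans (by linarith), fun j => ?_⟩
    rw [Pi.add_apply, Int.cast_add]
    have h5 := sh_le w.prod.a s.y hB h4 j
    have h6 : (1 + |(w.prod.a : ℝ)|) ^ (j : ℕ) ≤ (1 + B * (w.length + 1)) ^ (j : ℕ) :=
      pow_le_pow_left₀ (by positivity) (by linarith) _
    have h7 : (1 + B * w.length) ^ (j : ℕ) ≤ (1 + B * (w.length + 1)) ^ (j : ℕ) :=
      pow_le_pow_left₀ (by positivity) (by linarith) _
    have h8 := mul_le_mul_of_nonneg_left h6 hB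
    have h9 := mul_le_mul_of_nonneg_left (mul_le_mul_of_nonneg_left h7 hB)
      (Nat.cast_nonneg (α := ℝ) w.length)
    linarith [abs_add_le (w.prod.y j : ℝ) (sh w.prod.a s.y j : ℝ), h2 j]

end GrwA

theorem p_GRW :
    S_GRW := by
  intro d S
  obtain ⟨B, hB, hS⟩ : ∃ B : ℝ, 1 ≤ B ∧ ∀ s ∈ S, |(s.a : ℝ)| ≤ B ∧ ∀ i, |(s.y i : ℝ)| ≤ B := by
    refine ⟨1 + ∑ s ∈ S, (|(s.a : ℝ)| + ∑ i, |(s.y i : ℝ)|),
      le_add_of_nonneg_right (by positivity), fun s hs => ?_⟩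
    have h1 := single_le_sum (f := fun s : G d => |(s.a : ℝ)| + ∑ i, |(s.y i : ℝ)|)
      (fun s _ => by positivity) hs
    have h2 : 0 ≤ ∑ i, |(s.y i : ℝ)| := by positivity
    refine ⟨by linarith, fun i => ?_⟩
    have h3 := single_le_sum (f := fun i => |(s.y i : ℝ)|) (fun i _ => abs_nonneg _) (mem_univ i)
    linarith [abs_nonneg (s.a : ℝ)]
  have hB0 : 0 ≤ B := by linarith
  have h1 : (1 : ℝ) ≤ 2 * B := by linarith
  refine ⟨B * (2 * B) ^ d, by positivity, fun w hw => ?_⟩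
  obtain ⟨h2, h3⟩ := GrwA.main hB0 w fun s hs => hS s (hw s hs)
  refine ⟨h2.trans (mul_le_mul_of_nonneg_right
    (le_mul_of_one_le_right hB0 (one_le_pow₀ h1)) (Nat.cast_nonneg _)), fun j => (h3 j).trans ?_⟩
  rcases Nat.eq_zero_or_pos w.length with h | h
  · simp [h]
  have hn : (1 : ℝ) ≤ w.length := by exact_mod_cast h
  have h4 : (1 + B * w.length) ^ (j : ℕ) ≤ (2 * B) ^ d * (w.length : ℝ) ^ (j : ℕ) := by
    refine (pow_le_pow_left₀ (by positivity) (show _ ≤ 2 * B * w.length by nlinarith) _).trans ?_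
    rw [mul_pow]
    exact mul_le_mul_of_nonneg_right (pow_le_pow_right₀ h1 j.2.le) (by positivity)
  calc (w.length : ℝ) * (B * (1 + B * w.length) ^ (j : ℕ))
      ≤ w.length * (B * ((2 * B) ^ d * (w.length : ℝ) ^ (j : ℕ))) := by gcongr
    _ = _ := by ring

end Pool.Agent.P.MP_a0f0ad_al.Fi
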