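import Pool.Agent.P.MP_a0f0ad_al.Fi.I.Iface2

/-! Step IAEM of the filiform project. -/

namespace Pool.Agent.P.MP_a0f0ad_al.Fi

open Finset MeasureTheory Metric Filter Topology

theorem p_IAEM :
    S_IAEM := by
  intro d S N W L h
  let f : ℕ → E d → ℝ := fun n u => (len S (gam ((n : ℝ) + 1) u) : ℝ) / ((n : ℝ) + 1)
  have hf : ∀ n, Measurable (f n) := fun n =>
    (IB.meas_G (fun g : G d => (len S g : ℝ) / ((n : ℝ) + 1))).comp (IB.meas_gam _)
  refine aemeasurable_of_tendsto_metrizable_ae' (f := f) (fun n => (hf n).aemeasurable) ?_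
  rw [ae_restrict_iff' measurableSet_closedBall]
  filter_upwards [h] with u hu hL
  have hL' : ‖u‖ ≤ L := by simpa using hL
  have hb : ∀ n : ℕ, |f n u - N u| ≤ 2 * |W u| * (1 / ((n : ℝ) + 1)) := by
    intro n
    have h0 : (0 : ℝ) ≤ n := Nat.cast_nonneg n
    have hT : (1 : ℝ) ≤ (n : ℝ) + 1 := by linarith
    have hT0 : (0 : ℝ) < (n : ℝ) + 1 := by linarith
    have h1 := hu hL' _ hT (gam ((n : ℝ) + 1) u)
    have h2 := IB.nx_win' hT u 0
    have h3 : win ((n : ℝ) + 1) u 0 = gam ((n : ℝ) + 1) u := by simp [win]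
    rw [h3, norm_zero, zero_add] at h2
    have h4 : W u * (1 + ‖nx ((n : ℝ) + 1) (gam ((n : ℝ) + 1) u) - ((n : ℝ) + 1) • u‖) ≤
        2 * |W u| := by
      have h5 := norm_nonneg (nx ((n : ℝ) + 1) (gam ((n : ℝ) + 1) u) - ((n : ℝ) + 1) • u)
      have h6 := le_abs_self (W u)
      have h7 := abs_nonneg (W u)
      nlinarith
    have h8 : f n u - N u = ((len S (gam ((n : ℝ) + 1) u) : ℝ) - ((n : ℝ) + 1) * N u) *
        (1 / ((n : ℝ) + 1)) := by
      simp only [f]
      field_simp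
    rw [h8, abs_mul, abs_of_pos (by positivity : (0 : ℝ) < 1 / ((n : ℝ) + 1))]
    exact mul_le_mul_of_nonneg_right (h1.trans h4) (by positivity)
  have ht : Tendsto (fun n : ℕ => 2 * |W u| * (1 / ((n : ℝ) + 1))) atTop (𝓝 0) := by
    simpa using (tendsto_one_div_add_atTop_nhds_zero_nat (𝕜 := ℝ)).const_mul (2 * |W u|)
  rw [tendsto_iff_norm_sub_tendsto_zero]
  exact squeeze_zero (fun n => norm_nonneg _) hb ht

end Pool.Agent.P.MP_a0f0ad_al.Fi
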