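import Pool.Agent.P.MP_a0f0ad_al.Fi.I.Iface2

/-! Step IAVG of the filiform project. -/

namespace Pool.Agent.P.MP_a0f0ad_al.Fi

open Finset MeasureTheory Metric Filter Topology

namespace IavgA

/-- the estimate for one point of the window -/
theorem one (hIERR : S_IERR) {d : ℕ} {S : Finset (G d)} {L0 L Cs : ℝ} {N W : E d → ℝ}
    (T : ℕ) (hT : 1 ≤ T) (h1 : ∀ u : E d, len S (gam T u) ≤ T → ‖u‖ ≤ L0)
    (h2 : ∫ u : E d, max ((T : ℝ) - len S (gam T u)) 0 = BB S T / (T : ℝ) ^ DD d)
    (hL : L0 + 1 ≤ L) (hN0 : ∀ u, 0 ≤ N u) (hNL : ∀ u, N u ≤ 1 → ‖u‖ ≤ L)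
    (hNm : AEMeasurable N (volume.restrict (closedBall 0 L)))
    (hW : MemLp W 2 (volume.restrict (closedBall 0 L))) (hH : H2 S N W L) (hCs : 0 ≤ Cs)
    (hsh : ∀ s : ℝ, 0 < s →
      volume {u : E d | ‖u‖ ≤ L ∧ |1 - N u| ≤ s} ≤ ENNReal.ofReal (Cs * s))
    {R lam : ℝ} (hR : 0 ≤ R) (hRT : R ≤ T) (hlam : 0 < lam) (z : E d) (hz : ‖z‖ ≤ R) :
    |(∫ u in {u | N u < 1}, ((len S (win T u z) : ℝ) - T * N u)) -
      (T * (∫ u in closedBall (0 : E d) L, max (1 - N u) 0) - BB S T / (T : ℝ) ^ DD d)| ≤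
      Cs * (R + 2) ^ 2 * lam ^ 2 / T + (R + 2) * (∫ u in closedBall (0 : E d) L, W u ^ 2) / lam := by
  have hT1 : (1 : ℝ) ≤ T := by exact_mod_cast hT
  have hT0 : (0 : ℝ) < T := by linarith
  have hfin : volume (closedBall (0 : E d) L) ≠ ⊤ := (isCompact_closedBall _ _).measure_lt_top.ne
  have : IsFiniteMeasure (volume.restrict (closedBall (0 : E d) L)) :=
    isFiniteMeasure_restrict.2 hfin
  have hA : {u | N u < 1} ⊆ closedBall (0 : E d) L := fun u hu =>
    mem_closedBall_zero_iff.2 (hNL u (le_of_lt hu))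
  obtain ⟨M, hM⟩ := IB.bdd_win hT1 (fun g => (len S g : ℝ)) L R
  have hl : IntegrableOn (fun u => (len S (win T u z) : ℝ)) (closedBall (0 : E d) L) :=
    Measure.integrableOn_of_bounded (M := M) hfin
      ((IB.meas_G fun g => (len S g : ℝ)).comp (IB.meas_win' T z)).aestronglyMeasurable
      ((ae_restrict_iff' measurableSet_closedBall).2 (Eventually.of_forall fun u hu =>
        hM u z (mem_closedBall_zero_iff.1 hu) hz))
  have key := hIERR (E d) (volume.restrict (closedBall 0 L)) N W
    (fun u => (len S (win T u z) : ℝ)) T (R + 2) lam Cs hNm hN0 hW hl hT0 (by linarith) hlam hCs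
    (fun s hs => by
      rw [Measure.restrict_apply' measurableSet_closedBall]
      refine le_trans (measure_mono fun u hu => ?_) (hsh s hs)
      exact ⟨mem_closedBall_zero_iff.1 hu.2, hu.1⟩)
    (by
      refine (ae_restrict_iff' measurableSet_closedBall).2 ?_
      filter_upwards [hH] with u hu hb
      have h3 := hu (mem_closedBall_zero_iff.1 hb) T hT1 (win T u z)
      have h4 := IB.nx_win' hT1 u z
      have h5 := norm_nonneg (nx T (win T u z) - (T : ℝ) • u)
      have h6 : 0 ≤ W u := by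
        by_contra h
        have := abs_nonneg ((len S (win T u z) : ℝ) - T * N u)
        nlinarith
      nlinarith)
  rw [Measure.restrict_restrict_of_subset hA] at key
  have h7 : ∫ u in closedBall (0 : E d) L, max ((T : ℝ) - len S (win T u z)) 0 =
      BB S T / (T : ℝ) ^ DD d := by
    rw [setIntegral_eq_integral_of_forall_compl_eq_zero, ← h2]
    · have : (volume : Measure (E d)).IsAddRightInvariant := by
        rw [Measure.volume_eq_prod]; infer_instance
      exact integral_add_right_eq_self (fun u : E d => max ((T : ℝ) - len S (gam T u)) 0)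
        ((T : ℝ)⁻¹ • z)
    · intro u hu
      rw [mem_closedBall_zero_iff, not_le] at hu
      refine max_eq_right ?_
      by_contra h
      have h8 : len S (gam T (u + (T : ℝ)⁻¹ • z)) ≤ T := by
        have : (len S (win T u z) : ℝ) ≤ T := by linarith
        exact_mod_cast this
      have h9 := h1 _ h8
      have h10 : ‖(T : ℝ)⁻¹ • z‖ ≤ 1 := by
        rw [norm_smul, norm_inv, Real.norm_of_nonneg hT0.le, inv_mul_le_iff₀ hT0]
        linarith
      have h11 := norm_sub_le (u + (T : ℝ)⁻¹ • z) ((T : ℝ)⁻¹ • z)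
      rw [add_sub_cancel_right] at h11
      linarith
  rw [h7] at key
  refine le_trans (le_of_eq ?_) key
  congr 1
  ring

end IavgA

theorem p_IAVG (hISUM : S_ISUM) (hIERR : S_IERR) :
    S_IAVG := by
  intro d S hS
  obtain ⟨L0, hL0⟩ := hISUM d S hS
  refine ⟨L0 + 1, fun N W L Cs hL hN0 hNL hNm hW hH hCs hsh => ?_⟩
  have hI : 0 ≤ ∫ u in closedBall (0 : E d) L, W u ^ 2 := integral_nonneg fun u => sq_nonneg _
  refine ⟨∫ u in closedBall (0 : E d) L, max (1 - N u) 0,
    Cs + ∫ u in closedBall (0 : E d) L, W u ^ 2, by linarith, fun T R lam hR hRT hlam => ?_⟩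
  have hT : 1 ≤ T := hR.trans hRT
  have hT1 : (1 : ℝ) ≤ T := by exact_mod_cast hT
  have hR1 : (1 : ℝ) ≤ R := by exact_mod_cast hR
  have hRT1 : (R : ℝ) ≤ T := by exact_mod_cast hRT
  have hfin : volume (closedBall (0 : E d) L) ≠ ⊤ := (isCompact_closedBall _ _).measure_lt_top.ne
  have hA : {u | N u < 1} ⊆ closedBall (0 : E d) L := fun u hu =>
    mem_closedBall_zero_iff.2 (hNL u (le_of_lt hu))
  have : IsFiniteMeasure (volume.restrict {u | N u < 1}) :=
    isFiniteMeasure_restrict.2 (ne_top_of_le_ne_top hfin (measure_mono hA))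
  have := IB.fin_cube (d := d) (R : ℝ)
  have hc : volume (cube d R) ≠ ⊤ := isFiniteMeasure_restrict.1 this
  obtain ⟨M, hM⟩ := IB.bdd_win hT1 (fun g => (len S g : ℝ)) L R
  have hF : Integrable (fun x : E d × E d => (len S (win T x.1 x.2) : ℝ))
      ((volume.restrict {u | N u < 1}).prod (volume.restrict (cube d R))) := by
    rw [Measure.prod_restrict]
    refine IntegrableOn.mono_set (t := closedBall (0 : E d) L ×ˢ cube d R) ?_
      (Set.prod_mono hA le_rfl)
    refine Measure.integrableOn_of_bounded (M := M) ?_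
      ((IB.meas_G fun g => (len S g : ℝ)).comp (IB.meas_win2 T)).aestronglyMeasurable
      ((ae_restrict_iff' (measurableSet_closedBall.prod (IB.meas_cube _))).2
        (Eventually.of_forall fun x hx =>
          hM x.1 x.2 (mem_closedBall_zero_iff.1 hx.1) (IB.norm_cube hx.2)))
    rw [Measure.prod_prod]
    exact ENNReal.mul_ne_top hfin hc
  have hN : Integrable N (volume.restrict {u | N u < 1}) := by
    refine Integrable.of_bound (hNm.mono_measure (Measure.restrict_mono hA le_rfl)).aestronglyMeasurable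
      1 ?_
    have h1 := ae_restrict_mem₀ (nullMeasurableSet_lt hNm (aemeasurable_const (b := (1 : ℝ))))
    rw [Measure.restrict_restrict_of_subset hA] at h1
    filter_upwards [h1] with u hu
    rw [Real.norm_of_nonneg (hN0 u)]
    exact le_of_lt hu
  have hG := hF.integral_prod_left
  have hG' := hF.integral_prod_right
  refine ⟨(hG.div_const _).sub (hN.const_mul _), ?_⟩
  have hV : (0 : ℝ) < (R : ℝ) ^ (d + 1) := by positivity
  set K : ℝ := T * (∫ u in closedBall (0 : E d) L, max (1 - N u) 0) - BB S T / (T : ℝ) ^ DD d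
    with hK
  set B : ℝ := Cs * ((R : ℝ) + 2) ^ 2 * lam ^ 2 / T +
    ((R : ℝ) + 2) * (∫ u in closedBall (0 : E d) L, W u ^ 2) / lam with hB
  have h1 : ∫ u in {u | N u < 1}, Ew S N T R u =
      (∫ z in cube d R, ∫ u in {u | N u < 1}, (len S (win T u z) : ℝ)) / (R : ℝ) ^ (d + 1) -
        T * ∫ u in {u | N u < 1}, N u := by
    unfold Ew
    rw [integral_sub (hG.div_const _) (hN.const_mul _), integral_div, integral_const_mul,
      integral_integral_swap (f := fun u z => (len S (win T u z) : ℝ)) hF]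
  have h2 : ‖∫ z in cube d R, ((∫ u in {u | N u < 1}, (len S (win T u z) : ℝ)) -
      (T * (∫ u in {u | N u < 1}, N u) + K))‖ ≤ B * volume.real (cube d R) := by
    refine norm_setIntegral_le_of_norm_le_const hc.lt_top fun z hz => ?_
    have h3 := IavgA.one hIERR T hT (hL0 T hT).1 (hL0 T hT).2 hL hN0 hNL hNm hW hH hCs hsh
      (by linarith : (0 : ℝ) ≤ R) hRT1 hlam z (IB.norm_cube hz)
    have h4 : Integrable (fun u => (len S (win T u z) : ℝ)) (volume.restrict {u | N u < 1}) :=
      IntegrableOn.mono_set (Measure.integrableOn_of_bounded (M := M) hfin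
        ((IB.meas_G fun g => (len S g : ℝ)).comp (IB.meas_win' T z)).aestronglyMeasurable
        ((ae_restrict_iff' measurableSet_closedBall).2 (Eventually.of_forall fun u hu =>
          hM u z (mem_closedBall_zero_iff.1 hu) (IB.norm_cube hz)))) hA
    rw [integral_sub h4 (hN.const_mul _), integral_const_mul] at h3
    rw [Real.norm_eq_abs, ← sub_sub]
    exact h3
  rw [integral_sub hG' (integrable_const _), setIntegral_const, IB.real_cube (by linarith),
    Real.norm_eq_abs, smul_eq_mul] at h2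
  have h5 : |(∫ u in {u | N u < 1}, Ew S N T R u) - K| ≤ B := by
    rw [h1]
    refine le_of_mul_le_mul_right (le_trans (le_of_eq ?_) h2) hV
    rw [← abs_of_pos hV, ← abs_mul, abs_of_pos hV]
    congr 1
    field_simp
    ring
  refine h5.trans ?_
  have h6 : 0 ≤ ((R : ℝ) + 2) ^ 2 * lam ^ 2 / T := by positivity
  have h7 : 0 ≤ ((R : ℝ) + 2) / lam := by positivity
  have h8 : B = Cs * (((R : ℝ) + 2) ^ 2 * lam ^ 2 / T) +
      (∫ u in closedBall (0 : E d) L, W u ^ 2) * (((R : ℝ) + 2) / lam) := by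
    rw [hB]; ring
  rw [h8]
  nlinarith [mul_nonneg hCs h7, mul_nonneg hI h6]

end Pool.Agent.P.MP_a0f0ad_al.Fi
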