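import Pool.Agent.P.MP_a0f0ad_al.Fi.I.Iface2

/-! Step ICMP of the filiform project. -/

namespace Pool.Agent.P.MP_a0f0ad_al.Fi

open Finset MeasureTheory Metric Filter Topology

namespace IcmpA

variable {d : ℕ}

theorem lint_eq (k : E d → G d) (hk : Measurable k) (f : G d → ENNReal) :
    ∫⁻ z, f (k z) = ∑' g, f g * volume {z | k z = g} := by
  rw [← lintegral_map (IB.meas_G f) hk, lintegral_countable']
  refine tsum_congr fun g => ?_
  rw [Measure.map_apply hk (measurableSet_singleton g)]
  rfl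

theorem lint_le (k w : E d → G d) (hk : Measurable k) (hw : Measurable w) (q : ENNReal)
    (h : ∀ g, volume {z | k z = g} ≤ q * volume {z | w z = g}) (f : G d → ENNReal) :
    ∫⁻ z, f (k z) ≤ q * ∫⁻ z, f (w z) := by
  rw [lint_eq k hk, lint_eq w hw, ← ENNReal.tsum_mul_left]
  refine ENNReal.tsum_le_tsum fun g => ?_
  calc f g * volume {z | k z = g} ≤ f g * (q * volume {z | w z = g}) := by gcongr; exact h g
    _ = _ := by ring

/-- the enlarged box -/
def box (d : ℕ) (R s : ℝ) : Set (E d) :=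
  {z | z.1 ∈ Set.Icc (-s) (R + s) ∧ ∀ j, z.2 j ∈ Set.Icc (-s) (R + s)}

theorem meas_box (R s : ℝ) : MeasurableSet (box d R s) :=
  IB.meas_box measurableSet_Icc fun _ => measurableSet_Icc

theorem vol_box {R s : ℝ} (h : 0 ≤ R + 2 * s) :
    volume (box d R s) = ENNReal.ofReal ((R + 2 * s) ^ (d + 1)) := by
  rw [box, IB.vol_box]
  have : R + s - -s = R + 2 * s := by ring
  simp only [Real.volume_Icc, this, prod_const, card_univ, Fintype.card_fin]
  rw [ENNReal.ofReal_pow h, pow_succ']

theorem mem_box {R s : ℝ} {z z' : E d} (hz : z ∈ cube d R) (h : ‖z' - z‖ ≤ s) :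
    z' ∈ box d R s := by
  obtain ⟨h1, h2⟩ := IB.norm_le_iff.1 h
  simp only [Prod.fst_sub, Prod.snd_sub, Pi.sub_apply, abs_le] at h1 h2
  refine ⟨⟨?_, ?_⟩, fun j => ⟨?_, ?_⟩⟩
  · linarith [hz.1.1, h1.1]
  · linarith [hz.1.2, h1.2]
  · linarith [(hz.2 j).1, (h2 j).1]
  · linarith [(hz.2 j).2, (h2 j).2]

theorem vol_diff {R s : ℝ} (hR : 0 ≤ R) (hs : 0 ≤ s) :
    volume (box d R s \ cube d R) = ENNReal.ofReal ((R + 2 * s) ^ (d + 1) - R ^ (d + 1)) := by
  rw [measure_sdiff (fun z hz => mem_box hz (by simpa using hs))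
    (IB.meas_cube R).nullMeasurableSet (by rw [IB.vol_cube hR]; exact ENNReal.ofReal_ne_top),
    vol_box (by linarith), IB.vol_cube hR, ENNReal.ofReal_sub _ (by positivity)]

end IcmpA

open IcmpA in
theorem p_ICMP :
    S_ICMP := by
  intro d T N R b M q u ψ c hT hN hR hb hq h1 h2 h3
  classical
  set F : Set (G d) := {g | ∃ z ∈ cube d R, c (win N u z) = g} with hF
  have hFn : ∀ z ∈ cube d R, ‖nx T (c (win N u z)) - T • u‖ ≤ R + b + 1 := fun z hz => by
    have := norm_add_le (nx T (c (win N u z)) - T • u - z) z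
    rw [sub_add_cancel] at this
    linarith [h1 z hz, IB.norm_cube hz]
  have hw : ∀ z ∈ cube d R, 0 ≤ ψ (win T u z) := fun z hz =>
    (h3 _ (by linarith [IB.nx_win' hT u z, IB.norm_cube hz])).1
  have hM : 0 ≤ M := by
    have := h3 (win T u 0) (by
      have := IB.nx_win' hT u 0
      rw [norm_zero] at this
      linarith)
    exact this.1.trans this.2
  set f : G d → ENNReal := F.indicator fun g => ENNReal.ofReal (ψ g) with hf
  have hV : 0 ≤ (R + 2 * (b + 1)) ^ (d + 1) - R ^ (d + 1) :=
    sub_nonneg.2 (pow_le_pow_left₀ hR (by linarith) _)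
  have hB : 0 ≤ ∫ z in cube d R, ψ (win T u z) := setIntegral_nonneg (IB.meas_cube R) hw
  have e1 : ENNReal.ofReal (∫ z in cube d R, ψ (c (win N u z))) ≤ ∫⁻ z, f (c (win N u z)) := by
    rw [ofReal_integral_eq_lintegral_ofReal (IB.int_cube hN (fun g => ψ (c g)) u R)
      ((ae_restrict_iff' (IB.meas_cube R)).2
        (Eventually.of_forall fun z hz => (h3 _ (hFn z hz)).1))]
    refine le_trans (le_of_eq ?_) (setLIntegral_le_lintegral (cube d R) _)
    refine setLIntegral_congr_fun (IB.meas_cube R) fun z hz => ?_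
    simp only [hf]
    rw [Set.indicator_of_mem (show c (win N u z) ∈ F from ⟨z, hz, rfl⟩)]
  have e2 := lint_le (fun z => c (win N u z)) (win T u)
    ((IB.meas_G c).comp (IB.meas_win N u)) (IB.meas_win T u) _ h2 f
  have e3 : ∫⁻ z, f (win T u z) ≤ ENNReal.ofReal (∫ z in cube d R, ψ (win T u z)) +
      ENNReal.ofReal M * ENNReal.ofReal ((R + 2 * (b + 1)) ^ (d + 1) - R ^ (d + 1)) := by
    rw [ofReal_integral_eq_lintegral_ofReal (IB.int_cube hT ψ u R)
      ((ae_restrict_iff' (IB.meas_cube R)).2 (Eventually.of_forall hw)),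
      ← vol_diff hR (by linarith), ← lintegral_indicator (IB.meas_cube R),
      ← lintegral_indicator_const ((meas_box R (b + 1)).diff (IB.meas_cube R)),
      ← lintegral_add_right _
        (measurable_const.indicator ((meas_box R (b + 1)).diff (IB.meas_cube R)))]
    refine lintegral_mono fun z' => ?_
    by_cases hg : win T u z' ∈ F
    · simp only [hf]
      rw [Set.indicator_of_mem hg]
      by_cases hc : z' ∈ cube d R
      · rw [Set.indicator_of_mem hc]
        exact le_self_add
      · obtain ⟨z, hz, hzg⟩ := hg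
        have a1 := h1 z hz
        have a2 := IB.nx_win hT u z'
        have a4 := (h3 _ (hFn z hz)).2
        rw [hzg] at a1 a4
        have a3 := norm_sub_le (nx T (win T u z') - T • u - z) (nx T (win T u z') - T • u - z')
        rw [sub_sub_sub_cancel_left] at a3
        rw [Set.indicator_of_mem (show z' ∈ box d R (b + 1) \ cube d R from
          ⟨mem_box hz (by linarith), hc⟩)]
        exact (ENNReal.ofReal_le_ofReal a4).trans le_add_self
    · simp only [hf]
      rw [Set.indicator_of_notMem hg]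
      exact zero_le
  have e4 := e1.trans (e2.trans (mul_le_mul_right e3 _))
  rw [← ENNReal.ofReal_mul hM, ← ENNReal.ofReal_add hB (mul_nonneg hM hV),
    ← ENNReal.ofReal_mul hq] at e4
  exact (ENNReal.ofReal_le_ofReal_iff (by positivity)).1 e4

end Pool.Agent.P.MP_a0f0ad_al.Fi
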