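import Pool.Agent.P.MP_a0f0ad_al.Fi.I.Iface2

/-! Step ICOUP of the filiform project. -/

namespace Pool.Agent.P.MP_a0f0ad_al.Fi

open Finset MeasureTheory Metric Filter Topology

namespace IcoupA

/-- the coupling in one coordinate -/
noncomputable def ph (K : ℕ) (A B τ : ℝ) (n : ℤ) : ℤ := K * ⌊A * (n / B - τ) / K⌋ + n % K

theorem ph_mod (K : ℕ) (A B τ : ℝ) (n : ℤ) : ph K A B τ n ≡ n [ZMOD (K : ℤ)] := by
  simp [ph, Int.ModEq]

theorem ph_dist {K : ℕ} (hK : 0 < K) {A : ℝ} (hA : 0 < A) (B τ : ℝ) (n : ℤ) :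
    |n / B - ph K A B τ n / A - τ| ≤ K / A := by
  have hK' : (0 : ℝ) < K := by exact_mod_cast hK
  have h1 := Int.floor_le (A * (n / B - τ) / K)
  have h2 := Int.lt_floor_add_one (A * (n / B - τ) / K)
  rw [le_div_iff₀ hK'] at h1
  rw [div_lt_iff₀ hK'] at h2
  have h3 : (0 : ℝ) ≤ (n % K : ℤ) := by exact_mod_cast Int.emod_nonneg n (by omega)
  have h4 : ((n % K : ℤ) : ℝ) < K := by exact_mod_cast Int.emod_lt_of_pos n (by omega)
  have e : n / B - ph K A B τ n / A - τ = (A * (n / B - τ) - ph K A B τ n) / A := by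
    field_simp
    ring
  rw [e, abs_div, abs_of_pos hA]
  refine div_le_div_of_nonneg_right ?_ hA.le
  rw [ph, Int.cast_add, Int.cast_mul, Int.cast_natCast, abs_le]
  constructor <;> linarith

theorem ph_vol {K : ℕ} (hK : 0 < K) {A B : ℝ} (hA : 0 < A) (hB : 0 < B) (τ x : ℝ) (g : ℤ) :
    volume {t : ℝ | ph K A B τ ⌊B * (x + t)⌋ = g} ≤ ENNReal.ofReal (A⁻¹ + B⁻¹) := by
  have hK' : (0 : ℝ) < K := by exact_mod_cast hK
  obtain ⟨lo, hlo⟩ : ∃ lo : ℝ, lo * K = B * ((g / K : ℤ) * K / A + τ) - (g % K : ℤ) :=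
    ⟨_, div_mul_cancel₀ _ hK'.ne'⟩
  have key : ∀ n : ℤ, ph K A B τ n = g →
      ∃ m ∈ Finset.Ico ⌈lo⌉ ⌈lo + B / A⌉, n = g % K + K * m := by
    intro n hn
    obtain ⟨e1, e2⟩ := (Int.ediv_emod_unique (a := g) (b := K) (r := n % K)
      (q := ⌊A * (n / B - τ) / K⌋) (by omega)).2 ⟨by rw [← hn, ph, add_comm],
        Int.emod_nonneg n (by omega), Int.emod_lt_of_pos n (by omega)⟩
    have e3 : n = g % K + K * (n / K) := by rw [e2, Int.emod_add_mul_ediv]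
    have e4 : (n : ℝ) = (g % K : ℤ) + K * (n / K : ℤ) := by exact_mod_cast e3
    have h1 := Int.floor_le (A * (n / B - τ) / K)
    have h2 := Int.lt_floor_add_one (A * (n / B - τ) / K)
    rw [← e1, le_div_iff₀ hK', ← div_le_iff₀' hA, le_sub_iff_add_le, le_div_iff₀' hB] at h1
    rw [← e1, div_lt_iff₀ hK', ← lt_div_iff₀' hA, sub_lt_iff_lt_add, div_lt_iff₀' hB] at h2
    refine ⟨n / K, Finset.mem_Ico.2 ⟨Int.ceil_le.2 ?_, Int.lt_ceil.2 ?_⟩, e3⟩
    · exact le_of_mul_le_mul_right (by linarith) hK'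
    · refine lt_of_mul_lt_mul_right ?_ hK'.le
      have : B * ((((g / K : ℤ) : ℝ) + 1) * K / A + τ) =
          B * ((g / K : ℤ) * K / A + τ) + B / A * K := by ring
      linarith
  have hc : ((Finset.Ico ⌈lo⌉ ⌈lo + B / A⌉).card : ℝ) ≤ B / A + 1 := by
    have h0 : ⌈lo⌉ ≤ ⌈lo + B / A⌉ := Int.ceil_mono (le_add_of_nonneg_right (by positivity))
    have : ((Finset.Ico ⌈lo⌉ ⌈lo + B / A⌉).card : ℝ) = ⌈lo + B / A⌉ - ⌈lo⌉ := by
      exact_mod_cast Int.card_Ico_of_le _ _ h0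
    linarith [Int.ceil_lt_add_one (lo + B / A), Int.le_ceil lo]
  calc volume {t : ℝ | ph K A B τ ⌊B * (x + t)⌋ = g}
      ≤ volume (⋃ m ∈ Finset.Ico ⌈lo⌉ ⌈lo + B / A⌉, {t : ℝ | ⌊B * (x + t)⌋ = g % K + K * m}) :=
        measure_mono fun t ht => by
          obtain ⟨m, hm, e⟩ := key _ ht
          exact Set.mem_biUnion hm e
    _ ≤ _ := measure_biUnion_finset_le _ _
    _ = ENNReal.ofReal ((Finset.Ico ⌈lo⌉ ⌈lo + B / A⌉).card * B⁻¹) := by
        simp only [IB.vol_floor hB, sum_const, nsmul_eq_mul]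
        rw [ENNReal.ofReal_mul (Nat.cast_nonneg _), ENNReal.ofReal_natCast]
    _ ≤ _ := by
        refine ENNReal.ofReal_le_ofReal ((mul_le_mul_of_nonneg_right hc (by positivity)).trans ?_)
        refine le_of_eq ?_
        field_simp

end IcoupA

open IcoupA in
theorem p_ICOUP :
    S_ICOUP := by
  rintro d K T N u τ hK hT hN ⟨ta, tb, ha, hb⟩
  have hT0 : 0 < T := by linarith
  have hN0 : 0 < N := by linarith
  have hKT : 0 ≤ K / T := by positivity
  refine ⟨fun h => ⟨fun j => if (j : ℕ) = 0 then h.y j - K * tb else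
    ph K (T ^ (j : ℕ)) (N ^ (j : ℕ)) (τ.2 j) (h.y j), h.a - K * ta⟩, fun h => ⟨⟨?_, fun j => ?_⟩,
      IB.norm_le_iff.2 ⟨?_, fun j => ?_⟩⟩, fun g => ?_⟩
  · simp [Int.ModEq]
  · dsimp only
    split_ifs
    · simp [Int.ModEq]
    · exact ph_mod ..
  · simpa [nx, ha] using hKT
  · simp only [nx, Prod.snd_sub, Pi.sub_apply]
    split_ifs with e
    · obtain ⟨j, hj⟩ := j
      obtain rfl : j = 0 := e
      rw [co, dif_pos hj] at hb
      simpa [hb] using hKT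
    · exact (ph_dist hK (pow_pos hT0 _) _ _ _).trans
        (div_le_div_of_nonneg_left (Nat.cast_nonneg _) hT0 (le_self_pow₀ hT e))
  · have h1 : 1 ≤ 1 + T / N := le_add_of_nonneg_right (by positivity)
    refine le_trans (measure_mono (t := {z : E d |
      z.1 ∈ {t : ℝ | ⌊1 * (N * u.1 + t)⌋ = g.a + K * ta} ∧
      ∀ j : Fin d, z.2 j ∈ {t : ℝ | (if (j : ℕ) = 0 then ⌊N ^ (j : ℕ) * (N * u.2 j + t)⌋ - K * tb
        else ph K (T ^ (j : ℕ)) (N ^ (j : ℕ)) (τ.2 j) ⌊N ^ (j : ℕ) * (N * u.2 j + t)⌋) = g.y j}})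
      fun z hz => ?_) ?_
    · simp only [Set.mem_ofPred_eq, G.ext_iff, funext_iff, IB.win_a hN0.ne', IB.win_y hN0.ne',
        one_mul] at hz ⊢
      exact ⟨sub_eq_iff_eq_add.1 hz.2, hz.1⟩
    rw [IB.vol_box, IB.vol_floor one_pos, inv_one, ENNReal.ofReal_one, one_mul, IB.vol_win hT0,
      ENNReal.ofReal_pow (by linarith)]
    rw [← Fin.prod_const, ← prod_mul_distrib]
    refine prod_le_prod' fun j _ => ?_
    rw [← ENNReal.ofReal_mul (by linarith)]
    split_ifs with e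
    · simp only [sub_eq_iff_eq_add]
      rw [IB.vol_floor (pow_pos hN0 _), e]
      exact ENNReal.ofReal_le_ofReal (by simpa using (by positivity : 0 ≤ T / N))
    · refine (ph_vol hK (pow_pos hT0 _) (pow_pos hN0 _) _ _ _).trans (ENNReal.ofReal_le_ofReal ?_)
      have h2 : (T / N) ^ (j : ℕ) ≤ T / N :=
        pow_le_of_le_one (by positivity) ((div_le_one hN0).2 hN) e
      have h3 : (N ^ (j : ℕ))⁻¹ = (T / N) ^ (j : ℕ) * (T ^ (j : ℕ))⁻¹ := by
        rw [div_pow]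
        field_simp
      rw [h3, add_mul, one_mul]
      gcongr

end Pool.Agent.P.MP_a0f0ad_al.Fi
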