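import Pool.Agent.P.MP_a0f0ad_al.Fi.I.Iface2

/-! Step IERR of the filiform project. -/

namespace Pool.Agent.P.MP_a0f0ad_al.Fi

open Finset MeasureTheory Metric Filter Topology

namespace IerrA

theorem pt (T n l : ℝ) (hT : 0 < T) (F : ℝ)
    (hF : F = max (T - l) 0 - T * max (1 - n) 0 +
      if n < 1 then l - T * (1 - max (1 - n) 0) else 0) :
    F = 0 ∨ (|F| ≤ |l - T * n| ∧ T * |1 - n| ≤ |l - T * n|) := by
  have h1 := le_abs_self (l - T * n)
  have h2 := neg_abs_le (l - T * n)
  by_cases hn : n < 1
  · have hm : max (1 - n) 0 = 1 - n := max_eq_left (by linarith)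
    have ha : 0 < T * (1 - n) := mul_pos hT (by linarith)
    rw [if_pos hn, hm] at hF
    rcases le_total (T - l) 0 with h | h
    · right
      rw [max_eq_right h] at hF
      rw [abs_of_pos (by linarith : (0 : ℝ) < 1 - n)]
      refine ⟨abs_le.2 ⟨?_, ?_⟩, ?_⟩ <;> nlinarith
    · left
      rw [max_eq_left h] at hF
      rw [hF]; ring
  · have hn' : 1 ≤ n := not_lt.1 hn
    have hm : max (1 - n) 0 = 0 := max_eq_right (by linarith)
    have ha : 0 ≤ T * (n - 1) := mul_nonneg hT.le (by linarith)
    rw [if_neg hn, hm] at hF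
    rcases le_total (T - l) 0 with h | h
    · left
      rw [max_eq_right h] at hF
      rw [hF]; ring
    · right
      rw [max_eq_left h] at hF
      rw [abs_of_nonpos (by linarith : 1 - n ≤ 0)]
      refine ⟨abs_le.2 ⟨?_, ?_⟩, ?_⟩ <;> nlinarith

end IerrA

theorem p_IERR :
    S_IERR := by
  classical
  intro α _ μ _ N W l T ρ lam Cs hN hN0 hW hl hT hρ hlam hCs hS hE
  set U : Set α := {x | N x < 1} with hUd
  set V : Set α := {x | |1 - N x| ≤ ρ * lam / T} with hVd
  have hU : NullMeasurableSet U μ := nullMeasurableSet_lt hN aemeasurable_const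
  have hV : NullMeasurableSet V μ :=
    nullMeasurableSet_le (continuous_abs.measurable.comp_aemeasurable
      (aemeasurable_const.sub hN)) aemeasurable_const
  have i1 : Integrable (fun x => max (T - l x) 0) μ := ((integrable_const T).sub hl).pos_part
  have i2 : Integrable (fun x => max (1 - N x) 0) μ := by
    refine (integrable_const (1 : ℝ)).mono'
      ((aemeasurable_const.sub hN).max aemeasurable_const).aestronglyMeasurable
      (ae_of_all _ fun x => ?_)
    rw [Real.norm_eq_abs, abs_of_nonneg (le_max_right _ _)]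
    exact max_le (by linarith [hN0 x]) zero_le_one
  set g : α → ℝ := fun x => l x - T * (1 - max (1 - N x) 0) with hg
  have i3 : Integrable g μ := hl.sub (((integrable_const (1 : ℝ)).sub i2).const_mul T)
  have e3 : ∫ x in U, (l x - T * N x) ∂μ = ∫ x, U.indicator g x ∂μ := by
    rw [integral_indicator₀ hU]
    refine setIntegral_congr_fun₀ hU fun x hx => ?_
    have hx' : N x < 1 := hx
    simp only [hg]
    rw [max_eq_left (by linarith)]; ring
  have i4 : Integrable (U.indicator g) μ := i3.indicator₀ hU
  have i5 : Integrable (V.indicator fun _ => ρ * lam) μ := (integrable_const _).indicator₀ hV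
  have i6 : Integrable (fun x => ρ * W x ^ 2 / lam) μ :=
    ((hW.integrable_sq).const_mul ρ).div_const lam
  have eF : (∫ x, max (T - l x) 0 ∂μ) - T * (∫ x, max (1 - N x) 0 ∂μ) +
      ∫ x in U, (l x - T * N x) ∂μ =
      ∫ x, (max (T - l x) 0 - T * max (1 - N x) 0 + U.indicator g x) ∂μ := by
    have i7 : Integrable (fun x => max (T - l x) 0 - T * max (1 - N x) 0) μ :=
      i1.sub (i2.const_mul T)
    rw [integral_add i7 i4, integral_sub i1 (i2.const_mul T), integral_const_mul, e3]
  rw [eF, ← Real.norm_eq_abs]
  have hb := norm_integral_le_of_norm_le (μ := μ)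
    (f := fun x => max (T - l x) 0 - T * max (1 - N x) 0 + U.indicator g x)
    (i5.add i6) (by
      filter_upwards [hE] with x hx
      have hp := IerrA.pt T (N x) (l x) hT
        (max (T - l x) 0 - T * max (1 - N x) 0 + U.indicator g x) (by
          simp only [Set.indicator_apply, hUd, hg, Set.mem_ofPred_eq])
      have n1 : 0 ≤ V.indicator (fun _ => ρ * lam) x :=
        Set.indicator_nonneg (fun _ _ => (mul_pos hρ hlam).le) x
      have n2 : 0 ≤ ρ * W x ^ 2 / lam := by positivity
      rw [Real.norm_eq_abs, Pi.add_apply]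
      rcases hp with h | ⟨h1, h2⟩
      · rw [h, abs_zero]; linarith
      · rcases le_total (W x) lam with hw | hw
        · have hw' : ρ * W x ≤ ρ * lam := mul_le_mul_of_nonneg_left hw hρ.le
          have hxV : x ∈ V := by
            show |1 - N x| ≤ ρ * lam / T
            rw [le_div_iff₀ hT]; linarith
          rw [Set.indicator_of_mem hxV]; linarith
        · have : ρ * W x ≤ ρ * W x ^ 2 / lam := by
            rw [le_div_iff₀ hlam]
            have h0 : 0 ≤ ρ * W x := mul_nonneg hρ.le (by linarith)
            nlinarith [mul_le_mul_of_nonneg_left hw h0]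
          linarith)
  refine hb.trans ?_
  simp only [Pi.add_apply]
  rw [integral_add i5 i6, integral_div, integral_const_mul, integral_indicator₀ hV,
    setIntegral_const, smul_eq_mul]
  have hs : 0 < ρ * lam / T := by positivity
  have hm : μ.real V ≤ Cs * (ρ * lam / T) :=
    ENNReal.toReal_le_of_le_ofReal (by positivity) (hS _ hs)
  have : μ.real V * (ρ * lam) ≤ Cs * ρ ^ 2 * lam ^ 2 / T := by
    calc μ.real V * (ρ * lam) ≤ Cs * (ρ * lam / T) * (ρ * lam) :=
          mul_le_mul_of_nonneg_right hm (by positivity)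
      _ = _ := by ring
  linarith

end Pool.Agent.P.MP_a0f0ad_al.Fi
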