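import Pool.Agent.P.MP_a0f0ad_al.Fi.Z.Grp

/-! Chapter I: rational series and the counting argument. -/

namespace Pool.Agent.P.MP_a0f0ad_al.Fi

open Finset MeasureTheory Metric

-- deps:
/-- a rational series with integer coefficients of polynomial growth -/
def S_RAT : Prop :=
  ∀ β : ℕ → ℕ, (∃ C D : ℕ, ∀ n, β n ≤ C * (n + 1) ^ D) →
    (∃ P Q : Polynomial ℚ, Q.coeff 0 ≠ 0 ∧
      (Q : PowerSeries ℚ) * PowerSeries.mk (fun n : ℕ => (β n : ℚ)) = (P : PowerSeries ℚ)) →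
    PolyG β

-- deps:
/-- coordinates of short words -/
def S_GRW : Prop :=
  ∀ (d : ℕ) (S : Finset (G d)), ∃ C : ℝ, 0 < C ∧ ∀ w : List (G d), Wd S w →
    |(w.prod.a : ℝ)| ≤ C * w.length ∧
      ∀ j : Fin d, |(w.prod.y j : ℝ)| ≤ C * (w.length : ℝ) ^ ((j : ℕ) + 1)

-- deps:
/-- the weight is square integrable -/
def S_WL2 : Prop :=
  ∀ d : ℕ, 9 ≤ d → (∀ᵐ u : E d, 0 < ell u) ∧ ∀ L C : ℝ,
    MemLp (fun u : E d => C / ell u ^ d) 2 (volume.restrict (closedBall 0 L))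

-- deps: GRW
/-- the counting argument -/
def S_INT : Prop :=
  ∀ (d : ℕ) (S : Finset (G d)) (N : E d → ℝ) (θ κ : ℝ) (K : ℕ) (A : Set (E d)),
    1 ≤ d → Sym S → 0 < κ → 2 * κ < θ → θ ≤ 1 / 10 → 0 < K →
    (∀ l u, 0 < l → N (dil l u) = l * N u) → (∀ u, 0 ≤ N u) →
    (∃ L, ∀ u, N u ≤ 1 → ‖u‖ ≤ L) →
    IsOpen A → A.Nonempty → (∀ u ∈ A, N u < 1) →
    (∀ L : ℝ, ∃ (W : E d → ℝ) (C : ℝ), MemLp W 2 (volume.restrict (closedBall 0 L)) ∧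
      H2 S N W L ∧ H3 S N W K C θ κ A Set.univ) →
    ¬ PolyG fun i => {g : G d | len S g ≤ i}.ncard

end Pool.Agent.P.MP_a0f0ad_al.Fi
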