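import Pool.Agent.P.MP_a0f0ad_al.Fi.I.Basic

/-! Chapter I: the steps of the counting argument. -/

namespace Pool.Agent.P.MP_a0f0ad_al.Fi

open Finset MeasureTheory Metric Filter Topology

-- deps: GRW
/-- the summed growth function as an integral -/
def S_ISUM : Prop :=
  ∀ (d : ℕ) (S : Finset (G d)), Sym S → ∃ L0 : ℝ, ∀ T : ℕ, 1 ≤ T →
    (∀ u : E d, len S (gam T u) ≤ T → ‖u‖ ≤ L0) ∧
    ∫ u : E d, max ((T : ℝ) - len S (gam T u)) 0 = BB S T / (T : ℝ) ^ DD d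

-- deps:
/-- the volume of a shell -/
def S_ISHELL : Prop :=
  ∀ (d : ℕ) (N : E d → ℝ) (L : ℝ), (∀ l u, 0 < l → N (dil l u) = l * N u) →
    (∀ u, N u ≤ 1 → ‖u‖ ≤ L) → AEMeasurable N (volume.restrict (closedBall 0 L)) →
    ∃ C : ℝ, 0 ≤ C ∧ ∀ s : ℝ, 0 < s →
      volume {u : E d | ‖u‖ ≤ L ∧ |1 - N u| ≤ s} ≤ ENNReal.ofReal (C * s)

-- deps:
/-- the limit function is measurable -/
def S_IAEM : Prop :=
  ∀ (d : ℕ) (S : Finset (G d)) (N W : E d → ℝ) (L : ℝ), H2 S N W L →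
    AEMeasurable N (volume.restrict (closedBall 0 L))

-- deps:
/-- the error made in the shell -/
def S_IERR : Prop :=
  ∀ (α : Type) [MeasurableSpace α] (μ : Measure α) [IsFiniteMeasure μ] (N W l : α → ℝ)
    (T ρ lam Cs : ℝ), AEMeasurable N μ → (∀ x, 0 ≤ N x) → MemLp W 2 μ → Integrable l μ →
    0 < T → 0 < ρ → 0 < lam → 0 ≤ Cs →
    (∀ s, 0 < s → μ {x | |1 - N x| ≤ s} ≤ ENNReal.ofReal (Cs * s)) →
    (∀ᵐ x ∂μ, |l x - T * N x| ≤ ρ * W x) →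
    |(∫ x, max (T - l x) 0 ∂μ) - T * (∫ x, max (1 - N x) 0 ∂μ) +
        ∫ x in {x | N x < 1}, (l x - T * N x) ∂μ| ≤
      Cs * ρ ^ 2 * lam ^ 2 / T + ρ * (∫ x, W x ^ 2 ∂μ) / lam

-- deps: ISUM IERR
/-- the integral of the mean defect -/
def S_IAVG : Prop :=
  ∀ (d : ℕ) (S : Finset (G d)), Sym S → ∃ L1 : ℝ, ∀ (N W : E d → ℝ) (L Cs : ℝ), L1 ≤ L →
    (∀ u, 0 ≤ N u) → (∀ u, N u ≤ 1 → ‖u‖ ≤ L) →
    AEMeasurable N (volume.restrict (closedBall 0 L)) →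
    MemLp W 2 (volume.restrict (closedBall 0 L)) → H2 S N W L → 0 ≤ Cs →
    (∀ s : ℝ, 0 < s → volume {u : E d | ‖u‖ ≤ L ∧ |1 - N u| ≤ s} ≤ ENNReal.ofReal (Cs * s)) →
    ∃ c0 C : ℝ, 0 ≤ C ∧ ∀ (T R : ℕ) (lam : ℝ), 1 ≤ R → R ≤ T → 0 < lam →
      IntegrableOn (Ew S N T R) {u | N u < 1} ∧
      |(∫ u in {u | N u < 1}, Ew S N T R u) - (T * c0 - BB S T / (T : ℝ) ^ DD d)| ≤
        C * (((R : ℝ) + 2) ^ 2 * lam ^ 2 / T + ((R : ℝ) + 2) / lam)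

-- deps:
/-- the coupling of the scales `N` and `T` -/
def S_ICOUP : Prop :=
  ∀ (d K : ℕ) (T N : ℝ) (u τ : E d), 0 < K → 1 ≤ T → T ≤ N →
    (∃ ta tb : ℤ, τ.1 = (K : ℝ) * ta ∧ co τ.2 0 = (K : ℝ) * tb) →
    ∃ c : G d → G d, (∀ h, Cong K (c h) h ∧ ‖nx N h - nx T (c h) - τ‖ ≤ K / T) ∧
      ∀ g, volume {z | c (win N u z) = g} ≤
        ENNReal.ofReal ((1 + T / N) ^ d) * volume {z | win T u z = g}

-- deps:
/-- comparison of the window integrals -/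
def S_ICMP : Prop :=
  ∀ (d : ℕ) (T N R b M q : ℝ) (u : E d) (ψ : G d → ℝ) (c : G d → G d),
    1 ≤ T → 1 ≤ N → 0 ≤ R → 0 ≤ b → 0 ≤ q →
    (∀ z ∈ cube d R, ‖nx T (c (win N u z)) - T • u - z‖ ≤ b) →
    (∀ g, volume {z | c (win N u z) = g} ≤ ENNReal.ofReal q * volume {z | win T u z = g}) →
    (∀ g, ‖nx T g - T • u‖ ≤ R + b + 1 → 0 ≤ ψ g ∧ ψ g ≤ M) →
    ∫ z in cube d R, ψ (c (win N u z)) ≤
      q * ((∫ z in cube d R, ψ (win T u z)) + M * ((R + 2 * (b + 1)) ^ (d + 1) - R ^ (d + 1)))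

-- deps:
/-- the mean position in a window does not depend on the scale -/
def S_IMEAN : Prop :=
  ∀ (d R : ℕ) (p : E d), ∃ m : ℝ, ∀ (T : ℝ) (u : E d), 1 ≤ T →
    |(∫ z in cube d R, pair p (nx T (win T u z) - T • u)) - m| ≤
      d * ‖p‖ * (R : ℝ) ^ (d + 1) / T

-- deps: ICOUP ICMP IMEAN
/-- the comparison of the mean defects at a good point -/
def S_IPTW : Prop :=
  ∀ (d K : ℕ) (C θ : ℝ), 0 < K → 0 < θ → θ ≤ 1 → ∃ C1 : ℝ, 0 ≤ C1 ∧ ∀ᶠ T : ℕ in atTop,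
    ∀ (S : Finset (G d)) (N W : E d → ℝ) (κ : ℝ) (A : Set (E d)) (u : E d) (R : ℕ),
      GoodU S N W K C θ κ A T u → (T : ℝ) ^ θ ≤ R → (R : ℝ) ≤ 2 * (T : ℝ) ^ θ →
      ∀ ε : ℝ, 0 < ε → ∀ᶠ n : ℕ in atTop,
        Ew S N n R u ≤ Ew S N T R u + C1 * (W u + 1) * (T : ℝ) ^ (-θ) -
          A.indicator (fun _ => (T : ℝ) ^ (-κ) / 2) u + ε

-- deps:
/-- the expansion of a polynomial at infinity -/
def S_IPOLY : Prop :=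
  ∀ (f : Polynomial ℝ) (D : ℕ) (C : ℝ),
    (∀ᶠ n : ℕ in atTop, |f.eval (n : ℝ)| ≤ C * (n : ℝ) ^ D) →
    ∃ c C' : ℝ, ∀ n : ℕ, 1 ≤ n → |f.eval (n : ℝ) / (n : ℝ) ^ D - c| ≤ C' / n

-- deps:
/-- the reverse Fatou lemma -/
def S_IFAT : Prop :=
  ∀ (α : Type) [MeasurableSpace α] (μ : Measure α) (f : ℕ → α → ℝ) (g U : α → ℝ) (c : ℝ),
    (∀ᶠ n in atTop, Integrable (f n) μ ∧ ∀ᵐ x ∂μ, |f n x| ≤ g x) → Integrable g μ →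
    Integrable U μ → (∀ᵐ x ∂μ, ∀ ε : ℝ, 0 < ε → ∀ᶠ n in atTop, f n x ≤ U x + ε) →
    Tendsto (fun n => ∫ x, f n x ∂μ) atTop (𝓝 c) → c ≤ ∫ x, U x ∂μ

end Pool.Agent.P.MP_a0f0ad_al.Fi
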