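import Pool.Agent.P.MP_a0f0ad_al.Fi.I.Iface2

/-! Step IFAT of the filiform project. -/

namespace Pool.Agent.P.MP_a0f0ad_al.Fi

open Finset MeasureTheory Metric Filter Topology

theorem p_IFAT :
    S_IFAT := by
  intro α _ μ f g U c hf hg hU hlim hc
  have h0 : Tendsto (fun n => ∫ x, max (f n x - U x) 0 ∂μ) atTop (𝓝 (∫ _x, (0 : ℝ) ∂μ)) := by
    refine tendsto_integral_filter_of_dominated_convergence (fun x => |g x| + |U x|) ?_ ?_ ?_ ?_
    · filter_upwards [hf] with n hn
      exact ((hn.1.sub hU).sup (integrable_zero _ _ _)).aestronglyMeasurable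
    · filter_upwards [hf] with n hn
      filter_upwards [hn.2] with x hx
      rw [Real.norm_eq_abs, abs_of_nonneg (le_max_right _ _)]
      refine max_le ?_ (by positivity)
      have h1 := le_abs_self (f n x)
      have h2 := le_abs_self (g x)
      have h3 := neg_abs_le (U x)
      linarith
    · exact hg.abs.add hU.abs
    · filter_upwards [hlim] with x hx
      rw [Metric.tendsto_nhds]
      intro ε hε
      filter_upwards [hx (ε / 2) (by linarith)] with n hn
      rw [Real.dist_eq, sub_zero, abs_of_nonneg (le_max_right _ _)]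
      exact max_lt (by linarith) hε
  rw [integral_zero] at h0
  have h1 : Tendsto (fun n => ∫ x, U x ∂μ + ∫ x, max (f n x - U x) 0 ∂μ) atTop
      (𝓝 (∫ x, U x ∂μ + 0)) := tendsto_const_nhds.add h0
  rw [add_zero] at h1
  refine le_of_tendsto_of_tendsto hc h1 ?_
  filter_upwards [hf] with n hn
  have hm : Integrable (fun x => max (f n x - U x) 0) μ :=
    (hn.1.sub hU).sup (integrable_zero _ _ _)
  rw [← integral_add hU hm]
  refine integral_mono hn.1 (hU.add hm) ?_
  intro x
  have := le_max_left (f n x - U x) 0
  show f n x ≤ U x + max (f n x - U x) 0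
  linarith

end Pool.Agent.P.MP_a0f0ad_al.Fi
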