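import Pool.Agent.P.MP_a0f0ad_al.Fi.I.Iface2

/-! Step IMEAN of the filiform project. -/

namespace Pool.Agent.P.MP_a0f0ad_al.Fi

open Finset MeasureTheory Metric Filter Topology

namespace ImeanA

theorem fract_one : ∫ t in (0 : ℝ)..1, Int.fract t = 1 / 2 := by
  rw [intervalIntegral.integral_of_le zero_le_one, integral_Ioc_eq_integral_Ioo,
    setIntegral_congr_fun (g := fun t : ℝ => t) measurableSet_Ioo
      (fun t ht => Int.fract_eq_self.2 ⟨ht.1.le, ht.2⟩), ← integral_Ioc_eq_integral_Ioo,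
    ← intervalIntegral.integral_of_le zero_le_one, integral_id]
  norm_num

theorem fract_ii (a b : ℝ) : IntervalIntegrable (fun t : ℝ => Int.fract t) volume a b := by
  refine intervalIntegrable_iff.2 (Measure.integrableOn_of_bounded (M := 1) ?_
    measurable_fract.aestronglyMeasurable (Eventually.of_forall fun t => ?_))
  · rw [Set.uIoc, Real.volume_Ioc]; exact ENNReal.ofReal_ne_top
  · rw [Real.norm_of_nonneg (Int.fract_nonneg t)]; exact (Int.fract_lt_one t).le

theorem fract_int (x : ℝ) (R : ℕ) : ∫ t in Set.Ico (0 : ℝ) R, Int.fract (x + t) = R / 2 := by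
  rw [integral_Ico_eq_integral_Ioo, ← integral_Ioc_eq_integral_Ioo,
    ← intervalIntegral.integral_of_le (Nat.cast_nonneg R),
    intervalIntegral.integral_comp_add_left (fun t : ℝ => Int.fract t) x, add_zero]
  have h := (Int.fract_periodic ℝ).intervalIntegral_add_zsmul_eq (R : ℤ) x fract_ii
  have h2 := (Int.fract_periodic ℝ).intervalIntegral_add_eq x 0
  rw [zero_add, fract_one] at h2
  rw [h2] at h
  simp only [zsmul_eq_mul, Int.cast_natCast, mul_one] at h
  rw [h]
  ring

variable {d : ℕ}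

theorem restr (R : ℝ) : (volume : Measure (E d)).restrict (cube d R) =
    ((volume : Measure ℝ).restrict (Set.Ico 0 R)).prod
      (Measure.pi fun _ : Fin d => (volume : Measure ℝ).restrict (Set.Ico 0 R)) := by
  rw [cube, IB.box_eq, Measure.volume_eq_prod, ← Measure.prod_restrict, volume_pi,
    Measure.restrict_pi_pi]

theorem int_fst {R : ℝ} (hR : 0 ≤ R) (f : ℝ → ℝ) :
    ∫ z in cube d R, f z.1 = R ^ d * ∫ t in Set.Ico 0 R, f t := by
  rw [restr, integral_fun_fst, Measure.real, Measure.pi_univ]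
  simp [ENNReal.toReal_ofReal hR]

theorem int_snd {R : ℝ} (hR : 0 ≤ R) (f : ℝ → ℝ) (j : Fin d) :
    ∫ z in cube d R, f (z.2 j) = R ^ d * ∫ t in Set.Ico 0 R, f t := by
  rw [restr, integral_fun_snd (fun y : Fin d → ℝ => f (y j))]
  have h1 : (fun y : Fin d → ℝ => f (y j)) =
      fun y => ∏ i, (fun i t => if i = j then f t else (1 : ℝ)) i (y i) := by
    funext y
    simp
  rw [h1, integral_fintype_prod_eq_prod (fun i t => if i = j then f t else (1 : ℝ)),
    ← Finset.mul_prod_erase _ _ (mem_univ j),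
    Finset.prod_congr rfl (g := fun _ => R) (fun i hi => by
      simp [Finset.ne_of_mem_erase hi, Measure.real, ENNReal.toReal_ofReal hR])]
  have hd : d = (d - 1) + 1 := by have := j.2; omega
  have h2 : R ^ d = R ^ (d - 1) * R := by rw [← pow_succ, ← hd]
  simp [Measure.real, ENNReal.toReal_ofReal hR, h2]
  ring

theorem int_bdd {R : ℝ} {f : E d → ℝ} (hf : Measurable f) (M : ℝ)
    (h : ∀ z ∈ cube d R, |f z| ≤ M) : IntegrableOn f (cube d R) := by
  have := IB.fin_cube (d := d) R
  exact Integrable.of_bound hf.aestronglyMeasurable M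
    ((ae_restrict_iff' (IB.meas_cube R)).2 (Eventually.of_forall h))

theorem abs_fr {T : ℝ} (hT : 1 ≤ T) (j : ℕ) (x : ℝ) : |Int.fract x / T ^ j| ≤ 1 / T ^ j := by
  have h : 0 < T ^ j := by positivity
  rw [abs_of_nonneg (div_nonneg (Int.fract_nonneg x) h.le)]
  exact div_le_div_of_nonneg_right (Int.fract_lt_one x).le h.le

theorem pair_win {T : ℝ} (hT : 1 ≤ T) (p u z : E d) :
    pair p (nx T (win T u z) - T • u) = pair p z - p.1 * Int.fract (T * u.1 + z.1) -
      ∑ j : Fin d, p.2 j * (Int.fract (T ^ (j : ℕ) * (T * u.2 j + z.2 j)) / T ^ (j : ℕ)) := by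
  have h0 : 0 < T := by linarith
  have h1 : ∀ j : Fin d, (nx T (win T u z) - T • u).2 j =
      z.2 j - Int.fract (T ^ (j : ℕ) * (T * u.2 j + z.2 j)) / T ^ (j : ℕ) := fun j => by
    simp only [nx, IB.win_y h0.ne', Prod.snd_sub, Prod.smul_snd, Pi.sub_apply, Pi.smul_apply,
      smul_eq_mul, Int.fract]
    field_simp
    ring
  have h2 : (nx T (win T u z) - T • u).1 = z.1 - Int.fract (T * u.1 + z.1) := by
    simp only [nx, IB.win_a h0.ne', Prod.fst_sub, Prod.smul_fst, smul_eq_mul, Int.fract]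
    ring
  simp only [pair, dot, h1, h2, mul_sub, sum_sub_distrib]
  ring

end ImeanA

open ImeanA in
theorem p_IMEAN :
    S_IMEAN := by
  intro d R p
  have hR : (0 : ℝ) ≤ R := Nat.cast_nonneg R
  refine ⟨(∫ z in cube d R, pair p z) - p.1 * ((R : ℝ) ^ (d + 1) / 2) -
    ∑ j : Fin d, if (j : ℕ) = 0 then p.2 j * ((R : ℝ) ^ (d + 1) / 2) else 0, fun T u hT => ?_⟩
  have h0 : 0 < T := by linarith
  have hp := IB.norm_le_iff.1 (le_refl ‖p‖)
  have i1 : IntegrableOn (fun z => pair p z) (cube d R) :=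
    int_bdd (by unfold pair dot; fun_prop) ((d + 1) * ‖p‖ * R) fun z hz =>
      (IB.abs_pair_le p z).trans (mul_le_mul_of_nonneg_left (IB.norm_cube hz) (by positivity))
  have i2 : IntegrableOn (fun z : E d => Int.fract (T * u.1 + z.1)) (cube d R) :=
    int_bdd (measurable_fract.comp (by fun_prop)) 1 fun z _ => by
      rw [abs_of_nonneg (Int.fract_nonneg _)]; exact (Int.fract_lt_one _).le
  have i3 : ∀ j : Fin d, IntegrableOn (fun z : E d =>
      Int.fract (T ^ (j : ℕ) * (T * u.2 j + z.2 j)) / T ^ (j : ℕ)) (cube d R) := fun j =>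
    int_bdd ((measurable_fract.comp (by fun_prop)).div_const _) _ fun z _ => abs_fr hT _ _
  simp only [pair_win hT]
  have i4 : IntegrableOn (fun z : E d => pair p z - p.1 * Int.fract (T * u.1 + z.1))
      (cube d R) := i1.sub (i2.const_mul _)
  rw [integral_sub i4 (integrable_finsetSum _ fun j _ =>
    (i3 j).const_mul _), integral_sub i1 (i2.const_mul _),
    integral_finsetSum _ (fun j _ => (i3 j).const_mul _), integral_const_mul,
    int_fst hR (fun t => Int.fract (T * u.1 + t)), fract_int]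
  have e1 : (R : ℝ) ^ d * (R / 2) = (R : ℝ) ^ (d + 1) / 2 := by ring
  rw [e1, sub_sub_sub_cancel_left, ← sum_sub_distrib]
  refine (abs_sum_le_sum_abs _ _).trans ((sum_le_sum (g := fun _ => ‖p‖ * (R : ℝ) ^ (d + 1) / T)
    fun j _ => ?_).trans (le_of_eq ?_))
  · rw [integral_const_mul]
    split_ifs with hj
    · simp only [hj, pow_zero, one_mul, div_one]
      rw [int_snd hR (fun t => Int.fract (T * u.2 j + t)), fract_int, e1, sub_self, abs_zero]
      positivity
    · rw [zero_sub, abs_neg, abs_mul, mul_div_assoc]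
      refine mul_le_mul (hp.2 j) ?_ (abs_nonneg _) (norm_nonneg _)
      have h1 : volume (cube d (R : ℝ)) < ⊤ := by
        rw [IB.vol_cube hR]; exact ENNReal.ofReal_lt_top
      have h2 := norm_setIntegral_le_of_norm_le_const (μ := volume) h1
        (f := fun z : E d => Int.fract (T ^ (j : ℕ) * (T * u.2 j + z.2 j)) / T ^ (j : ℕ))
        (C := 1 / T) fun z _ => (abs_fr hT _ _).trans
          (one_div_le_one_div_of_le h0 (le_self_pow₀ hT hj))
      rw [IB.real_cube hR] at h2
      exact h2.trans (le_of_eq (by ring))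
  · simp only [sum_const, card_univ, Fintype.card_fin, nsmul_eq_mul]
    ring

end Pool.Agent.P.MP_a0f0ad_al.Fi
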