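import Pool.Agent.P.MP_a0f0ad_al.Fi.I.Iface2

/-! Step IPOLY of the filiform project. -/

namespace Pool.Agent.P.MP_a0f0ad_al.Fi

open Finset MeasureTheory Metric Filter Topology

theorem p_IPOLY :
    S_IPOLY := by
  intro f D C h
  have hd : f.natDegree < D + 1 := by
    by_contra hn
    have h1 : (Polynomial.X ^ D : Polynomial ℝ).degree < f.degree := by
      rw [Polynomial.degree_X_pow]
      exact Polynomial.coe_lt_degree.2 (by omega)
    have h2 := (Polynomial.abs_div_tendsto_atTop_atTop_of_degree_gt f _ h1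
      (pow_ne_zero D Polynomial.X_ne_zero)).comp tendsto_natCast_atTop_atTop
    obtain ⟨n, h3, h4, h5⟩ := (h.and ((h2.eventually_gt_atTop C).and (eventually_ge_atTop 1))).exists
    have hn : (0 : ℝ) < (n : ℝ) ^ D := pow_pos (by exact_mod_cast h5) D
    simp only [Function.comp_apply, Polynomial.eval_pow, Polynomial.eval_X, abs_div,
      abs_of_pos hn] at h4
    exact h3.not_gt ((lt_div_iff₀ hn).1 h4)
  refine ⟨f.coeff D, ∑ i ∈ range D, |f.coeff i|, fun n hn => ?_⟩
  have h1 : (1 : ℝ) ≤ n := by exact_mod_cast hn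
  have h0 : (0 : ℝ) < n := by linarith
  have hD : (0 : ℝ) < (n : ℝ) ^ D := pow_pos h0 D
  rw [Polynomial.eval_eq_sum_range' hd, sum_range_succ, add_div, mul_div_cancel_right₀ _ hD.ne',
    add_sub_cancel_right, sum_div, sum_div]
  refine (abs_sum_le_sum_abs _ _).trans (sum_le_sum fun i hi => ?_)
  rw [abs_div, abs_mul, abs_of_pos hD, abs_of_pos (pow_pos h0 i), div_le_div_iff₀ hD h0, mul_assoc,
    ← pow_succ]
  exact mul_le_mul_of_nonneg_left (pow_le_pow_right₀ h1 (mem_range.1 hi)) (abs_nonneg _)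

end Pool.Agent.P.MP_a0f0ad_al.Fi
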