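import Pool.Agent.P.MP_a0f0ad_al.Fi.I.Iface2

/-! Step IPTW of the filiform project. -/

namespace Pool.Agent.P.MP_a0f0ad_al.Fi

open Finset MeasureTheory Metric Filter Topology
open scoped Classical

namespace IptwA

theorem pow_le (c x : ℝ) (hc : 0 ≤ c) (hx : 0 ≤ x) (hx1 : x ≤ 1) (k : ℕ) :
    (1 + c * x) ^ k ≤ 1 + x * ((1 + c) ^ k - 1) := by
  induction k with
  | zero => simp
  | succ k ih =>
    have hP : 1 ≤ (1 + c) ^ k := one_le_pow₀ (by linarith)
    have h1 := mul_le_mul_of_nonneg_right ih (show 0 ≤ 1 + c * x by positivity)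
    have h2 : 0 ≤ c * x * (1 - x) * ((1 + c) ^ k - 1) :=
      mul_nonneg (mul_nonneg (mul_nonneg hc hx) (by linarith)) (by linarith)
    rw [pow_succ, pow_succ]
    nlinarith

theorem edge (c R t : ℝ) (hc : 0 ≤ c) (hR : 1 ≤ R) (ht : R⁻¹ ≤ t) (k : ℕ) :
    (R + c) ^ k - R ^ k ≤ (1 + c) ^ k * t * R ^ k := by
  have h0 : 0 < R := by linarith
  have h1 := pow_le c R⁻¹ hc (by positivity) (inv_le_one_of_one_le₀ hR) k
  have h2 : (R + c) ^ k = (1 + c * R⁻¹) ^ k * R ^ k := by
    rw [← mul_pow]; congr 1; field_simp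
  have h3 : R⁻¹ * ((1 + c) ^ k - 1) ≤ (1 + c) ^ k * t := by
    have : 0 < R⁻¹ := by positivity
    have : 0 ≤ (1 + c) ^ k := by positivity
    nlinarith
  have h4 : 0 < R ^ k := by positivity
  rw [h2]
  nlinarith

theorem ind_le {d : ℕ} {T R C f : ℝ} {u : E d} {X : Set (G d)} (hC : 0 ≤ C) (hf : 0 ≤ f)
    (hR : 0 ≤ R) (h : Frac T R u X f) :
    ∫ z in cube d R, (if win T u z ∈ X then C else 0) ≤ C * f * R ^ (d + 1) := by
  have hm : MeasurableSet (win T u ⁻¹' X) := IB.meas_win T u (MeasurableSet.of_discrete)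
  have h1 : (fun z => if win T u z ∈ X then C else 0) = (win T u ⁻¹' X).indicator fun _ => C := by
    funext z; simp [Set.indicator]
  rw [h1, integral_indicator_const _ hm, smul_eq_mul, mul_comm, mul_assoc]
  refine mul_le_mul_of_nonneg_left ?_ hC
  rw [Measure.real, Measure.restrict_apply hm]
  refine ENNReal.toReal_le_of_le_ofReal (by positivity) (le_trans (le_of_eq ?_) h)
  congr 1
  ext z
  exact and_comm

theorem large (θ c : ℝ) (hθ : 0 < θ) :
    ∀ᶠ T : ℕ in atTop, 1 ≤ (T : ℝ) ∧ 2 * (T : ℝ) ^ θ + c ≤ (T : ℝ) ^ (2 * θ) := by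
  have h1 := (tendsto_rpow_atTop hθ).comp (tendsto_natCast_atTop_atTop (R := ℝ))
  filter_upwards [h1.eventually_ge_atTop (3 + |c|), eventually_ge_atTop 1] with T h2 h3
  refine ⟨by exact_mod_cast h3, ?_⟩
  rw [mul_comm 2 θ, Real.rpow_mul (Nat.cast_nonneg _), Real.rpow_two]
  simp only [Function.comp] at h2
  nlinarith [le_abs_self c, abs_nonneg c]

theorem small (T Y Z ε : ℝ) (d : ℕ) (hε : 0 < ε) :
    ∀ᶠ n : ℕ in atTop, ((1 + T / n) ^ d - 1) * Y + Z / n ≤ ε := by
  have h1 : ∀ c : ℝ, Tendsto (fun n : ℕ => c / (n : ℝ)) atTop (𝓝 0) :=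
    fun c => tendsto_const_div_atTop_nhds_zero_nat c
  have h2 := (((((h1 T).const_add 1).pow d).sub_const 1).mul_const Y).add (h1 Z)
  simp only [add_zero, one_pow, sub_self, zero_mul] at h2
  exact h2.eventually (eventually_le_nhds hε)

end IptwA

open IptwA in
theorem p_IPTW (hICOUP : S_ICOUP) (hICMP : S_ICMP) (hIMEAN : S_IMEAN) :
    S_IPTW := by
  intro d K C θ hK hθ hθ1
  set e0 : ℝ := (1 + 2 * (|C| + K + 1 + 1)) ^ (d + 1) with he0
  have he00 : 0 ≤ e0 := by positivity
  refine ⟨d + C ^ 2 + (2 + |C|) * e0 + |C| + (d + 1) * K, by positivity, ?_⟩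
  filter_upwards [large θ (|C| + K + 2) hθ] with T ⟨hT, hT2⟩
  rintro S N W κ A u R ⟨p, δ, X, hp, hFb, ⟨τ, n, hint, hτ, hn, hmain⟩, hδ, hA, -, hFr⟩ hR1 hR2 ε hε
  have hC : 0 ≤ C := (norm_nonneg _).trans (hτ 0)
  rw [abs_of_nonneg hC] at *
  set w := W u with hw
  have hw0 : 0 ≤ w := (norm_nonneg _).trans hp
  have hT0 : (0 : ℝ) < T := by linarith
  set t : ℝ := (T : ℝ) ^ (-θ) with ht
  have ht0 : 0 < t := Real.rpow_pos_of_pos hT0 _
  have hθT : 1 ≤ (T : ℝ) ^ θ := Real.one_le_rpow hT hθ.le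
  have hR : (1 : ℝ) ≤ R := hθT.trans hR1
  have hRt : (R : ℝ)⁻¹ ≤ t := by
    rw [ht, Real.rpow_neg hT0.le]; exact inv_anti₀ (by linarith) hR1
  have hTt : (T : ℝ)⁻¹ ≤ t := by
    rw [ht, ← Real.rpow_neg_one]; exact Real.rpow_le_rpow_of_exponent_le hT (by linarith)
  set V : ℝ := (R : ℝ) ^ (d + 1) with hV
  have hV0 : 0 < V := by positivity
  have hvol : (volume.restrict (cube d R)).real Set.univ = V := by
    rw [measureReal_restrict_apply_univ, IB.real_cube (by linarith)]
  have := IB.fin_cube (d := d) R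
  obtain ⟨m, hm⟩ := hIMEAN d R p
  let ind : G d → ℝ := fun g => if g ∈ X then C else 0
  let ψ : G d → ℝ := fun g => Fb T (N u) u p (len S g) g + ind g + w
  have hψ : ∀ g, ‖nx T g - (T : ℝ) • u‖ ≤ R + (C + K + 1) + 1 → 0 ≤ ψ g ∧ ψ g ≤ 2 * w + C := by
    intro g hg
    have h1 := abs_le.1 (hFb g (by linarith))
    have h2 : 0 ≤ ind g ∧ ind g ≤ C := by simp only [ind]; split_ifs <;> simp [hC]
    simp only [ψ]
    constructor <;> linarith [h1.1, h1.2, h2.1, h2.2]
  have hE : ∀ s : ℝ, ∫ z in cube d R, (len S (win s u z) : ℝ) = V * (Ew S N s R u + s * N u) := by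
    intro s
    rw [Ew, sub_add_cancel, ← hV, mul_div_cancel₀ _ hV0.ne']
  have hI : ∫ z in cube d R, ψ (win T u z) ≤
      V * Ew S N T R u - m + d * w * V * t + C * (C * t) * V + V * w := by
    have i1 := IB.int_cube hT (fun g => (len S g : ℝ)) u R
    have i2 := IB.int_cube hT (fun g => pair p (nx T g - (T : ℝ) • u)) u R
    have i3 := IB.int_cube hT ind u R
    have h1 := ind_le hC (by positivity) (by linarith) (hFr R hR1 hR2)
    have h2 := (abs_le.1 (hm T u hT)).1
    have h3 : d * ‖p‖ * V / T ≤ d * w * V * t := by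
      rw [div_eq_mul_inv]; gcongr
    simp only [ψ, Fb]
    have j1 := IB.int_cube hT (fun g => (len S g : ℝ) - T * N u) u R
    have j2 := IB.int_cube hT (fun g => (len S g : ℝ) - T * N u - pair p (nx T g - (T : ℝ) • u)) u R
    have j3 := IB.int_cube hT
      (fun g => (len S g : ℝ) - T * N u - pair p (nx T g - (T : ℝ) • u) + ind g) u R
    rw [integral_add j3 (integrable_const _), integral_add j2 i3,
      integral_sub j1 i2, integral_sub i1 (integrable_const _),
      integral_const, integral_const, hvol, hE, smul_eq_mul, smul_eq_mul]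
    simp only [ind]
    linarith
  set Y : ℝ := (∫ z in cube d R, ψ (win T u z)) + (2 * w + C) *
    ((R + 2 * (C + K + 1 + 1)) ^ (d + 1) - R ^ (d + 1)) with hY
  have hedge := edge (2 * (C + K + 1 + 1)) R t (by positivity) hR hRt (d + 1)
  have hfin := (eventually_all_finite (IB.finite_near hT0 ((T : ℝ) • u) ((T : ℝ) ^ (2 * θ)))).2
    fun g hg => hmain g hg
  filter_upwards [hfin, small T (Y / V) (d * w) ε d hε, eventually_ge_atTop T] with k hk hs hkT
  have hkT' : (T : ℝ) ≤ k := by exact_mod_cast hkT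
  have hk1 : (1 : ℝ) ≤ k := hT.trans hkT'
  obtain ⟨c, hc, hcv⟩ := hICOUP d K T k u (τ k) hK hT hkT' (hint k)
  have hKT : (K : ℝ) / T ≤ K := div_le_self (Nat.cast_nonneg _) hT
  have hb : ∀ z ∈ cube d R, ‖nx T (c (win k u z)) - (T : ℝ) • u - z‖ ≤ C + K + 1 := by
    intro z _
    have h1 := IB.nx_win hk1 u z
    have h2 := (hc (win k u z)).2
    have h3 := hτ k
    have h4 : nx T (c (win k u z)) - (T : ℝ) • u - z = (nx k (win k u z) - (k : ℝ) • u - z) -
        (nx k (win k u z) - nx T (c (win k u z)) - τ k) - (τ k - ((k : ℝ) - T) • u) := by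
      rw [sub_smul]; abel
    rw [h4]
    refine (norm_sub_le _ _).trans ?_
    linarith [norm_sub_le (nx k (win k u z) - (k : ℝ) • u - z)
      (nx k (win k u z) - nx T (c (win k u z)) - τ k)]
  have hcmp := hICMP d T k R (C + K + 1) (2 * w + C) ((1 + T / k) ^ d) u ψ c hT hk1 (by linarith)
    (by positivity) (by positivity) hb hcv hψ
  have hpt : ∀ z ∈ cube d R, (len S (win k u z) : ℝ) ≤ ψ (c (win k u z)) +
      pair p (nx k (win k u z) - (k : ℝ) • u) + (k * N u - w + δ + (d + 1) * w * (K * t)) := by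
    intro z hz
    set h := win k u z
    have h1 : ‖nx T (c h) - (T : ℝ) • u‖ ≤ (T : ℝ) ^ (2 * θ) := by
      have := norm_add_le (nx T (c h) - (T : ℝ) • u - z) z
      rw [sub_add_cancel] at this
      linarith [hb z hz, IB.norm_cube hz]
    have h2 := hk (c h) h1 h (hc h).1 ((hc h).2.trans (by
      rw [mul_div_assoc]; linarith [show (0 : ℝ) ≤ K / T by positivity]))
    have h3 := hn k
    have h4 : pair p (nx T (c h) - (T : ℝ) • u) + pair p (τ k - ((k : ℝ) - T) • u) +
        pair p (nx k h - nx T (c h) - τ k) = pair p (nx k h - (k : ℝ) • u) := by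
      rw [← IB.pair_add, ← IB.pair_add, sub_smul]; congr 1; abel
    have h5 : |pair p (nx k h - nx T (c h) - τ k)| ≤ (d + 1) * w * (K * t) := by
      refine (IB.abs_pair_le _ _).trans ?_
      have := (hc h).2.trans (show (K : ℝ) / T ≤ K * t by rw [div_eq_mul_inv]; gcongr)
      gcongr
    simp only [ψ, Fb, ind]
    linarith [(abs_le.1 h5).1]
  have i1 := IB.int_cube hk1 (fun g => (len S g : ℝ)) u R
  have i2 := IB.int_cube hk1 (fun g => pair p (nx k g - (k : ℝ) • u)) u R
  have i3 := IB.int_cube hk1 (fun g => ψ (c g)) u R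
  have h6 := setIntegral_mono_on i1 ((i3.add i2).add (integrable_const _)) (IB.meas_cube R) hpt
  simp only [Pi.add_apply] at h6
  have j3 := IB.int_cube hk1 (fun g => ψ (c g) + pair p (nx k g - (k : ℝ) • u)) u R
  rw [integral_add j3 (integrable_const _), integral_add i3 i2, integral_const, hvol, hE,
    smul_eq_mul] at h6
  have h7 := (abs_le.1 (hm k u hk1)).2
  have h8 : d * ‖p‖ * V / k ≤ V * (d * w / k) := by
    rw [mul_div_assoc', mul_comm V]; gcongr
  have h9 := mul_le_mul_of_nonneg_left hs hV0.le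
  have h10 : V * (((1 + T / k) ^ d - 1) * (Y / V)) = (1 + T / k) ^ d * Y - Y := by
    field_simp
  have h11 := mul_le_mul_of_nonneg_left hedge (show 0 ≤ 2 * w + C by positivity)
  have h12 : δ ≤ C * t - A.indicator (fun _ => (T : ℝ) ^ (-κ) / 2) u := by
    by_cases hu : u ∈ A
    · rw [Set.indicator_of_mem hu]
      linarith [hA hu, mul_nonneg hC ht0.le]
    · rw [Set.indicator_of_notMem hu]
      linarith
  have h13 : d * w * t + C * (C * t) + (2 * w + C) * (e0 * t) + C * t + (d + 1) * w * (K * t) ≤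
      (d + C ^ 2 + (2 + C) * e0 + C + (d + 1) * K) * (w + 1) * t := by
    have : 0 ≤ (d + C ^ 2 * w + (2 + C * w) * e0 + C * w + (d + 1) * K) * t := by positivity
    nlinarith
  refine le_of_mul_le_mul_left ?_ hV0
  have h14 := mul_le_mul_of_nonneg_left h12 hV0.le
  have h15 := mul_le_mul_of_nonneg_left h13 hV0.le
  rw [← hY] at hcmp
  rw [← he0, ← hV] at h11
  rw [mul_add, h10] at h9
  rw [← hV] at hY h7
  linarith

end Pool.Agent.P.MP_a0f0ad_al.Fi
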