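import Pool.Agent.P.MP_a0f0ad_al.Fi.I.Iface2

/-! Step ISHELL of the filiform project. -/

namespace Pool.Agent.P.MP_a0f0ad_al.Fi

open Finset MeasureTheory Metric Filter Topology

namespace IshellA

variable {d : ℕ}

/-- The dilation as a linear map. -/
noncomputable def dilL (d : ℕ) (l : ℝ) : E d →ₗ[ℝ] E d :=
  LinearMap.prodMap (l • LinearMap.id)
    (Matrix.toLin' (Matrix.diagonal fun j : Fin d => l ^ ((j : ℕ) + 1)))

lemma dilL_apply (l : ℝ) (u : E d) : dilL d l u = dil l u := by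
  refine Prod.ext ?_ ?_
  · simp [dilL, dil]
  · funext j
    simp [dilL, dil, Matrix.mulVec_diagonal]

lemma det_dilL (l : ℝ) : LinearMap.det (dilL d l) = l ^ DD d := by
  rw [dilL, LinearMap.det_prodMap, LinearMap.det_toLin', Matrix.det_diagonal, LinearMap.det_smul,
    LinearMap.det_id, Module.finrank_self, DD, pow_add, prod_pow_eq_pow_sum, mul_one]

lemma dil_dil_inv {l : ℝ} (hl : 0 < l) (u : E d) : dil l (dil l⁻¹ u) = u := by
  refine Prod.ext ?_ ?_
  · simp only [dil]
    field_simp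
  · funext j
    simp only [dil]
    rw [← mul_assoc, ← mul_pow, mul_inv_cancel₀ hl.ne', one_pow, one_mul]

lemma vol_lt {N : E d → ℝ} (hN : ∀ l u, 0 < l → N (dil l u) = l * N u) {l : ℝ} (hl : 0 < l) :
    volume {u : E d | N u < l} = ENNReal.ofReal (l ^ DD d) * volume {u : E d | N u < 1} := by
  have h1 : {u : E d | N u < l} = dilL d l '' {u : E d | N u < 1} := by
    ext u
    constructor
    · intro hu
      refine ⟨dil l⁻¹ u, ?_, by rw [dilL_apply, dil_dil_inv hl]⟩
      show N (dil l⁻¹ u) < 1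
      rw [hN _ _ (inv_pos.2 hl), inv_mul_lt_iff₀ hl, mul_one]
      exact hu
    · rintro ⟨v, hv, rfl⟩
      show N (dilL d l v) < l
      rw [dilL_apply, hN _ _ hl]
      exact mul_lt_of_lt_one_right hl hv
  haveI : (volume : Measure (E d)).IsAddHaarMeasure := by
    rw [Measure.volume_eq_prod]
    infer_instance
  rw [h1, Measure.addHaar_image_linearMap, det_dilL, abs_of_pos (pow_pos hl _)]

lemma pow_up (D : ℕ) {x : ℝ} (h0 : 0 ≤ x) (h1 : x ≤ 1) : (1 + x) ^ D ≤ 1 + (2 ^ D - 1) * x := by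
  induction D with
  | zero => simp
  | succ n ih =>
    have h2 : (1 : ℝ) ≤ 2 ^ n := one_le_pow₀ (by norm_num)
    have h3 : (1 + x) ^ n * (1 + x) ≤ (1 + (2 ^ n - 1) * x) * (1 + x) :=
      mul_le_mul_of_nonneg_right ih (by linarith)
    have h4 : (2 ^ n - 1) * x * x ≤ (2 ^ n - 1) * x * 1 :=
      mul_le_mul_of_nonneg_left h1 (mul_nonneg (by linarith) h0)
    rw [pow_succ, pow_succ]
    nlinarith

end IshellA

open IshellA in
theorem p_ISHELL :
    S_ISHELL := by
  intro d N L hN hL hm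
  have hfin : volume (closedBall (0 : E d) L) ≠ ⊤ :=
    (isCompact_closedBall (0 : E d) L).measure_lt_top.ne
  have hsub : ∀ l : ℝ, l ≤ 1 → {u : E d | N u < l} ⊆ closedBall 0 L := fun l hl u hu =>
    mem_closedBall_zero_iff.2 (hL u (le_trans (le_of_lt hu) hl))
  have hnull : ∀ l : ℝ, l ≤ 1 → NullMeasurableSet {u : E d | N u < l} volume := by
    intro l hl
    have h1 : NullMeasurableSet {u : E d | N u < l} (volume.restrict (closedBall 0 L)) :=
      nullMeasurableSet_lt hm aemeasurable_const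
    rw [nullMeasurableSet_restrict measurableSet_closedBall.nullMeasurableSet,
      Set.inter_eq_left.2 (hsub l hl)] at h1
    exact h1
  have hV : volume {u : E d | N u < 1} ≠ ⊤ :=
    ne_top_of_le_ne_top hfin (measure_mono (hsub 1 le_rfl))
  obtain ⟨V, hV0, hVe⟩ : ∃ V : ℝ, 0 ≤ V ∧ volume {u : E d | N u < 1} = ENNReal.ofReal V :=
    ⟨_, ENNReal.toReal_nonneg, (ENNReal.ofReal_toReal hV).symm⟩
  obtain ⟨B, hB0, hBe⟩ : ∃ B : ℝ, 0 ≤ B ∧ volume (closedBall (0 : E d) L) = ENNReal.ofReal B :=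
    ⟨_, ENNReal.toReal_nonneg, (ENNReal.ofReal_toReal hfin).symm⟩
  have h2D : (1 : ℝ) ≤ 2 ^ DD d := one_le_pow₀ (by norm_num)
  have hC1 : 0 ≤ (2 * 2 ^ DD d + DD d) * V := by positivity
  refine ⟨(2 * 2 ^ DD d + DD d) * V + 2 * B, by positivity, fun s hs => ?_⟩
  by_cases h : s ≤ 1 / 2
  · have h1 : {u : E d | ‖u‖ ≤ L ∧ |1 - N u| ≤ s} ⊆
        {u : E d | N u < 1 + 2 * s} \ {u : E d | N u < 1 - s} := by
      intro u hu
      have := abs_le.1 hu.2
      exact ⟨show N u < 1 + 2 * s by linarith [this.1], fun h' : N u < 1 - s => by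
        linarith [this.2]⟩
    have h2 : {u : E d | N u < 1 - s} ⊆ {u : E d | N u < 1 + 2 * s} := fun u hu =>
      show N u < 1 + 2 * s by
        have : N u < 1 - s := hu
        linarith
    refine (measure_mono h1).trans ?_
    have h3 : (0 : ℝ) < 1 - s := by linarith
    have h4 : (0 : ℝ) < 1 + 2 * s := by linarith
    rw [measure_sdiff h2 (hnull _ (by linarith))
      (ne_top_of_le_ne_top hfin (measure_mono (hsub _ (by linarith)))), vol_lt hN h3,
      vol_lt hN h4, hVe, ← ENNReal.ofReal_mul (pow_pos h3 _).le,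
      ← ENNReal.ofReal_mul (pow_pos h4 _).le,
      ← ENNReal.ofReal_sub _ (mul_nonneg (pow_pos h3 _).le hV0)]
    refine ENNReal.ofReal_le_ofReal ?_
    have h5 := pow_up (DD d) (x := 2 * s) (by linarith) (by linarith)
    have h6 : 1 + (DD d : ℝ) * (-s) ≤ (1 + -s) ^ DD d := one_add_mul_le_pow (by linarith) _
    have h7 : (1 + 2 * s) ^ DD d - (1 - s) ^ DD d ≤ (2 * 2 ^ DD d + DD d) * s := by
      rw [sub_eq_add_neg 1 s]
      nlinarith
    have h8 := mul_le_mul_of_nonneg_right h7 hV0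
    have h9 : 0 ≤ 2 * B * s := by positivity
    nlinarith
  · have h1 : {u : E d | ‖u‖ ≤ L ∧ |1 - N u| ≤ s} ⊆ closedBall 0 L := fun u hu =>
      mem_closedBall_zero_iff.2 hu.1
    refine (measure_mono h1).trans ?_
    rw [hBe]
    refine ENNReal.ofReal_le_ofReal ?_
    have h2 : 1 / 2 < s := not_le.1 h
    have h3 := mul_nonneg hC1 hs.le
    nlinarith

end Pool.Agent.P.MP_a0f0ad_al.Fi
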