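import Pool.Agent.P.MP_a0f0ad_al.Fi.I.Iface2
import Pool.Agent.P.MP_a0f0ad_al.Fi.I.Iface

/-! Step ISUM of the filiform project. -/

namespace Pool.Agent.P.MP_a0f0ad_al.Fi

open Finset MeasureTheory Metric Filter Topology

namespace IsumA

variable {d : ℕ}

lemma floor_bd {s x c : ℝ} (hs : 1 ≤ s) (h : |((⌊s * x⌋ : ℤ) : ℝ)| ≤ c * s) :
    |x| ≤ c + 1 := by
  have h0 : 0 < s := by linarith
  have h1 := Int.floor_le (s * x)
  have h2 := Int.lt_floor_add_one (s * x)
  obtain ⟨h3, h4⟩ := abs_le.1 h
  rw [abs_le]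
  constructor
  · by_contra hx
    have : x < -(c + 1) := not_le.1 hx
    nlinarith
  · by_contra hx
    have : c + 1 < x := not_le.1 hx
    nlinarith

lemma sum_swap (S : Finset (G d)) (T : ℕ) (F : Finset (G d))
    (hF : ∀ g, g ∈ F ↔ len S g ≤ T) : ∑ g ∈ F, ((T : ℝ) - len S g) = BB S T := by
  classical
  have h1 : ∀ i ∈ range T, (({g : G d | len S g ≤ i}.ncard : ℕ) : ℝ) =
      ∑ g ∈ F, if len S g ≤ i then (1 : ℝ) else 0 := by
    intro i hi
    have hi' : i < T := mem_range.1 hi
    have : {g : G d | len S g ≤ i} = ((F.filter fun g => len S g ≤ i : Finset (G d)) : Set (G d)) := by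
      ext g
      simp only [Set.mem_ofPred_eq, coe_filter, hF]
      constructor
      · intro h
        exact ⟨by omega, h⟩
      · intro h
        exact h.2
    rw [this, Set.ncard_coe_finset, sum_boole]
  rw [BB, sum_congr rfl h1, sum_comm]
  refine sum_congr rfl fun g hg => ?_
  have h2 : len S g ≤ T := (hF g).1 hg
  have h3 : (range T).filter (fun i => len S g ≤ i) = Ico (len S g) T := by
    ext i
    simp only [mem_filter, mem_range, mem_Ico]
    exact and_comm
  rw [sum_boole, h3, Nat.card_Ico, Nat.cast_sub h2]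

end IsumA

open IsumA in
theorem p_ISUM (hGRW : S_GRW) :
    S_ISUM := by
  classical
  intro d S hS
  obtain ⟨C, hC, hw⟩ := hGRW d S
  have hb : ∀ (T : ℕ) (g : G d), len S g ≤ T →
      |(g.a : ℝ)| ≤ C * T ∧ ∀ j : Fin d, |(g.y j : ℝ)| ≤ C * (T : ℝ) ^ ((j : ℕ) + 1) := by
    intro T g hg
    obtain ⟨w, h1, h2, h3⟩ := IB.exists_word hS g
    obtain ⟨h4, h5⟩ := hw w h1
    have h6 : (w.length : ℝ) ≤ T := by exact_mod_cast h2.trans_le hg
    rw [h3] at h4 h5
    refine ⟨h4.trans (mul_le_mul_of_nonneg_left h6 hC.le), fun j => (h5 j).trans ?_⟩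
    exact mul_le_mul_of_nonneg_left (pow_le_pow_left₀ (Nat.cast_nonneg _) h6 _) hC.le
  refine ⟨C + 1, fun T hT => ⟨fun u hu => ?_, ?_⟩⟩
  · have hT' : (1 : ℝ) ≤ T := by exact_mod_cast hT
    obtain ⟨h1, h2⟩ := hb T _ hu
    exact IB.norm_le_iff.2 ⟨floor_bd hT' h1,
      fun j => floor_bd (one_le_pow₀ hT') (h2 j)⟩
  · have hT' : (1 : ℝ) ≤ T := by exact_mod_cast hT
    have hT0 : (0 : ℝ) < T := by linarith
    have hfin : {g : G d | len S g ≤ T}.Finite := by
      refine (IB.finite_near hT0 0 (C * T)).subset fun g hg => ?_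
      obtain ⟨h1, h2⟩ := hb T g hg
      show ‖nx T g - 0‖ ≤ C * T
      rw [sub_zero]
      refine IB.norm_le_iff.2 ⟨h1, fun j => ?_⟩
      have h3 : (0 : ℝ) < (T : ℝ) ^ (j : ℕ) := by positivity
      show |(g.y j : ℝ) / (T : ℝ) ^ (j : ℕ)| ≤ C * T
      rw [abs_div, abs_of_pos h3, div_le_iff₀ h3]
      refine (h2 j).trans (le_of_eq ?_)
      ring
    have hF : ∀ g, g ∈ hfin.toFinset ↔ len S g ≤ T := fun g => by simp
    have hpt : ∀ u : E d, max ((T : ℝ) - len S (gam T u)) 0 =
        ∑ g ∈ hfin.toFinset, {u : E d | gam T u = g}.indicator (fun _ => (T : ℝ) - len S g) u := by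
      intro u
      by_cases h : len S (gam T u) ≤ T
      · rw [sum_eq_single (gam T u)]
        · rw [Set.indicator_of_mem (by exact rfl), max_eq_left]
          have : (len S (gam T u) : ℝ) ≤ T := by exact_mod_cast h
          linarith
        · intro g _ hg
          have hn : u ∉ {u : E d | gam T u = g} := fun e => hg (Eq.symm e)
          exact Set.indicator_of_notMem hn _
        · intro h'
          exact absurd ((hF _).2 h) h'
      · have h1 : (T : ℝ) ≤ len S (gam T u) := by exact_mod_cast (not_le.1 h).le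
        rw [max_eq_right (by linarith)]
        refine (sum_eq_zero fun g hg => ?_).symm
        have hn : u ∉ {u : E d | gam T u = g} := fun e => h (by
          have e' : gam T u = g := e
          rw [e']
          exact (hF g).1 hg)
        exact Set.indicator_of_notMem hn _
    have hms : ∀ g : G d, MeasurableSet {u : E d | gam T u = g} := fun g =>
      IB.meas_gam (T : ℝ) (measurableSet_singleton g)
    have hvol : ∀ g : G d, volume.real {u : E d | gam T u = g} = ((T : ℝ) ^ DD d)⁻¹ := fun g => by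
      rw [Measure.real, IB.vol_gam hT0, ENNReal.toReal_ofReal (by positivity)]
    rw [integral_congr_ae (Eventually.of_forall hpt), integral_finsetSum]
    · rw [← sum_swap S T _ hF, sum_div]
      refine sum_congr rfl fun g _ => ?_
      rw [integral_indicator_const _ (hms g), hvol, smul_eq_mul, div_eq_inv_mul]
    · intro g _
      refine (integrable_indicator_iff (hms g)).2 (integrableOn_const ?_)
      rw [IB.vol_gam hT0]
      exact ENNReal.ofReal_ne_top

end Pool.Agent.P.MP_a0f0ad_al.Fi
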