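import Pool.Agent.P.MP_a0f0ad_al.Fi.I.Int1
import Pool.Agent.P.MP_a0f0ad_al.Fi.I.Iaem
import Pool.Agent.P.MP_a0f0ad_al.Fi.I.Ishell
import Pool.Agent.P.MP_a0f0ad_al.Fi.I.Iavg
import Pool.Agent.P.MP_a0f0ad_al.Fi.I.Isum
import Pool.Agent.P.MP_a0f0ad_al.Fi.I.Ierr
import Pool.Agent.P.MP_a0f0ad_al.Fi.I.Iptw
import Pool.Agent.P.MP_a0f0ad_al.Fi.I.Icoup
import Pool.Agent.P.MP_a0f0ad_al.Fi.I.Icmp
import Pool.Agent.P.MP_a0f0ad_al.Fi.I.Imean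
import Pool.Agent.P.MP_a0f0ad_al.Fi.I.Ipoly
import Pool.Agent.P.MP_a0f0ad_al.Fi.I.Ifat

/-! Step INT of the filiform project. -/

namespace Pool.Agent.P.MP_a0f0ad_al.Fi

open Finset MeasureTheory Metric

theorem p_INT (hGRW : S_GRW) :
    S_INT :=
  int_of p_IAEM p_ISHELL (p_IAVG (p_ISUM hGRW) p_IERR) (p_IPTW p_ICOUP p_ICMP p_IMEAN) p_IPOLY
    p_IFAT

end Pool.Agent.P.MP_a0f0ad_al.Fi
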