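import Pool.Agent.P.MP_a0f0ad_al.Fi.I.Iface2

/-! The glue of the counting argument. -/

namespace Pool.Agent.P.MP_a0f0ad_al.Fi

open Finset MeasureTheory Metric Filter Topology

namespace IntA

theorem dom {d : ℕ} {S : Finset (G d)} {N : E d → ℝ} {u : E d} {w : ℝ}
    (h : ∀ T : ℝ, 1 ≤ T → ∀ g : G d, |(len S g : ℝ) - T * N u| ≤ w * (1 + ‖nx T g - T • u‖)) :
    0 ≤ w ∧ ∀ T R : ℝ, 1 ≤ T → 1 ≤ R → |Ew S N T R u| ≤ (R + 2) * w := by
  have hw : 0 ≤ w := nonneg_of_mul_nonneg_left ((abs_nonneg _).trans (h 1 le_rfl 1)) (by positivity)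
  refine ⟨hw, fun T R hT hR => ?_⟩
  have := IB.fin_cube (d := d) R
  have hV : 0 < R ^ (d + 1) := by positivity
  have h1 := norm_setIntegral_le_of_norm_le_const (μ := volume) (s := cube d R)
    (f := fun z => (len S (win T u z) : ℝ) - T * N u) (C := (R + 2) * w)
    (by rw [IB.vol_cube (by linarith)]; exact ENNReal.ofReal_lt_top) fun z hz => by
      refine (h T hT _).trans ?_
      rw [mul_comm]
      exact mul_le_mul_of_nonneg_right (by linarith [IB.nx_win' hT u z, IB.norm_cube hz]) hw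
  rw [integral_sub (IB.int_cube hT (fun g => (len S g : ℝ)) u R) (integrable_const _),
    integral_const, measureReal_restrict_apply_univ, IB.real_cube (by linarith), smul_eq_mul,
    Real.norm_eq_abs] at h1
  rw [Ew, div_sub' hV.ne', abs_div, abs_of_pos hV, div_le_iff₀ hV]
  exact h1

theorem expand (hIPOLY : S_IPOLY) (B : ℕ → ℝ) (D w : ℕ) (hw : 0 < w) (f : Polynomial ℝ)
    (c0 C : ℝ) (hf : ∀ᶠ n : ℕ in atTop, B (w * n) = f.eval (n : ℝ))
    (hB : ∀ T : ℕ, 1 ≤ T → |T * c0 - B T / (T : ℝ) ^ D| ≤ C) :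
    ∃ c1 C' : ℝ, 0 ≤ C' ∧ ∀ᶠ n : ℕ in atTop,
      |((w * n : ℕ) : ℝ) * c0 - B (w * n) / ((w * n : ℕ) : ℝ) ^ D - c1| ≤ C' / (w * n : ℕ) := by
  have hw1 : (1 : ℝ) ≤ w := by exact_mod_cast hw
  have hwD : (1 : ℝ) ≤ (w : ℝ) ^ D := one_le_pow₀ hw1
  have key : ∀ n : ℕ, 1 ≤ n → B (w * n) = f.eval (n : ℝ) →
      (Polynomial.C (c0 * w ^ (D + 1)) * Polynomial.X ^ (D + 1) - f).eval (n : ℝ) / (n : ℝ) ^ D =
        (w : ℝ) ^ D * (((w * n : ℕ) : ℝ) * c0 - B (w * n) / ((w * n : ℕ) : ℝ) ^ D) := by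
    intro n hn h
    have : (0 : ℝ) < n := by exact_mod_cast hn
    simp only [Polynomial.eval_sub, Polynomial.eval_mul, Polynomial.eval_C, Polynomial.eval_pow,
      Polynomial.eval_X, ← h, Nat.cast_mul, mul_pow]
    field_simp
    ring
  obtain ⟨c, C', hc⟩ := hIPOLY (Polynomial.C (c0 * w ^ (D + 1)) * Polynomial.X ^ (D + 1) - f) D
    ((w : ℝ) ^ D * C) (by
      filter_upwards [hf, eventually_ge_atTop 1] with n h hn
      have h0 : (0 : ℝ) < (n : ℝ) ^ D := by positivity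
      rw [← div_le_iff₀ h0, ← abs_of_pos h0, ← abs_div, key n hn h, abs_mul,
        abs_of_pos (by positivity)]
      exact mul_le_mul_of_nonneg_left (hB _ (Nat.mul_pos hw hn)) (by positivity))
  refine ⟨c / (w : ℝ) ^ D, |C'| * w, by positivity, ?_⟩
  filter_upwards [hf, eventually_ge_atTop 1] with n h hn
  have h1 := hc n hn
  have h0 : (0 : ℝ) < n := by exact_mod_cast hn
  rw [key n hn h] at h1
  set P := ((w * n : ℕ) : ℝ) * c0 - B (w * n) / ((w * n : ℕ) : ℝ) ^ D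
  have h2 : (w : ℝ) ^ D * P - c = (w : ℝ) ^ D * (P - c / (w : ℝ) ^ D) := by field_simp
  rw [h2, abs_mul, abs_of_pos (by positivity)] at h1
  have h3 : |C'| * w / ((w * n : ℕ) : ℝ) = |C'| / n := by push_cast; field_simp
  have h4 : C' / n ≤ |C'| / n := by gcongr; exact le_abs_self _
  rw [h3]
  nlinarith [abs_nonneg (P - c / (w : ℝ) ^ D)]

theorem lim (J P : ℕ → ℝ) (w : ℕ) (hw : 0 < w) (c1 C C' ρ : ℝ)
    (hP : ∀ᶠ n : ℕ in atTop, |P (w * n) - c1| ≤ C' / (w * n : ℕ))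
    (hJ : ∀ᶠ T : ℕ in atTop, ∀ lam : ℝ, 0 < lam →
      |J T - P T| ≤ C * (ρ ^ 2 * lam ^ 2 / T + ρ / lam)) :
    Tendsto (fun n => J (w * n)) atTop (𝓝 c1) := by
  have hm : Tendsto (fun n => w * n) atTop atTop := tendsto_id.const_mul_atTop' hw
  have hr := (tendsto_natCast_atTop_atTop (R := ℝ)).comp hm
  have h1 := (tendsto_rpow_neg_atTop (show (0 : ℝ) < 1 / 2 by norm_num)).comp hr
  have h2 := (tendsto_rpow_neg_atTop (show (0 : ℝ) < 1 / 4 by norm_num)).comp hr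
  have h3 := (((h1.const_mul (ρ ^ 2)).add (h2.const_mul ρ)).const_mul C).add
    (hr.const_div_atTop C')
  simp only [mul_zero, add_zero] at h3
  rw [tendsto_iff_norm_sub_tendsto_zero]
  refine squeeze_zero' (Eventually.of_forall fun _ => norm_nonneg _) ?_ h3
  filter_upwards [hP, hm.eventually hJ, hr.eventually_gt_atTop 0] with n h4 h5 h6
  simp only [Function.comp] at h6 ⊢
  have h7 := h5 (((w * n : ℕ) : ℝ) ^ (1 / 4 : ℝ)) (Real.rpow_pos_of_pos h6 _)
  have h8 : (((w * n : ℕ) : ℝ) ^ (1 / 4 : ℝ)) ^ 2 / (w * n : ℕ) =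
      ((w * n : ℕ) : ℝ) ^ (-(1 / 2) : ℝ) := by
    rw [← Real.rpow_natCast, ← Real.rpow_mul h6.le, ← Real.rpow_sub_one h6.ne']
    norm_num
  rw [mul_div_assoc, h8, div_eq_mul_inv ρ, ← Real.rpow_neg h6.le] at h7
  rw [Real.norm_eq_abs]
  linarith [abs_sub_le (J (w * n)) (P (w * n)) c1]

theorem bad {α : Type} [MeasurableSpace α] (μ : Measure α) [IsFiniteMeasure μ] (W : α → ℝ)
    (hW : MemLp W 2 μ) (B : Set α) (hB : MeasurableSet B) (ρ lam : ℝ) (hρ : 0 ≤ ρ)
    (hl : 0 < lam) :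
    ∫ x, B.indicator (fun x => ρ * W x + 1) x ∂μ ≤
      (ρ * lam + 1) * μ.real B + ρ / lam * ∫ x, W x ^ 2 ∂μ := by
  have i1 : Integrable W μ := hW.integrable (by norm_num)
  have i2 : Integrable (fun x => W x ^ 2) μ := hW.integrable_sq
  have i3 : Integrable (B.indicator fun _ => ρ * lam + 1) μ := (integrable_const _).indicator hB
  rw [← integral_const_mul, mul_comm, ← smul_eq_mul, ← integral_indicator_const _ hB,
    ← integral_add i3 (i2.const_mul _)]
  refine integral_mono (((i1.const_mul ρ).add (integrable_const 1)).indicator hB)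
    (i3.add (i2.const_mul _)) fun x => ?_
  by_cases hx : x ∈ B
  · simp only [Set.indicator_of_mem hx]
    have : W x ≤ lam + W x ^ 2 / lam := by
      rw [add_div' _ _ _ hl.ne', le_div_iff₀ hl]
      nlinarith [sq_nonneg (W x - lam), sq_nonneg (W x), sq_nonneg lam]
    have h2 := mul_le_mul_of_nonneg_left this hρ
    have h3 : ρ / lam * W x ^ 2 = ρ * (W x ^ 2 / lam) := by ring
    linarith
  · simp only [Set.indicator_of_notMem hx, zero_add]
    positivity

theorem arith {s T R C C1 C2 C3 I1 I2 m b : ℝ} (hs : 1 ≤ s) (hT : s ^ 7 ≤ T) (hR0 : 0 ≤ R)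
    (hR : R ≤ 2 * s) (hC : 0 ≤ C) (hC2 : 0 ≤ C2) (hC3 : 0 ≤ C3) (hI : 0 ≤ I2)
    (hb : b ≤ C * s⁻¹ ^ 4) :
    C3 / T + C2 * ((R + 2) ^ 2 * (s ^ 2) ^ 2 / T + (R + 2) / s ^ 2) + C1 * s⁻¹ * (I1 + m) +
      ((2 * (R + 2) * s ^ 2 + 1) * b + 2 * (R + 2) / s ^ 2 * I2) ≤
      (C3 + 20 * C2 + C1 * (I1 + m) + 9 * C + 8 * I2) * s⁻¹ := by
  have h0 : 0 < s := by linarith
  have h7 : s ≤ s ^ 7 := le_self_pow₀ hs (by norm_num)
  have h1 : C3 / T ≤ C3 * s⁻¹ := by
    rw [div_eq_mul_inv]; gcongr; linarith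
  have h2 : (R + 2) ^ 2 * (s ^ 2) ^ 2 / T ≤ 16 * s⁻¹ := by
    calc _ ≤ (4 * s) ^ 2 * (s ^ 2) ^ 2 / s ^ 7 := by gcongr; linarith
      _ = _ := by field_simp; norm_num
  have h3 : (R + 2) / s ^ 2 ≤ 4 * s⁻¹ := by
    calc _ ≤ (4 * s) / s ^ 2 := by gcongr; linarith
      _ = _ := by field_simp
  have h4 : (2 * (R + 2) * s ^ 2 + 1) * b ≤ 9 * C * s⁻¹ := by
    have h8 : 1 ≤ s ^ 3 := one_le_pow₀ hs
    calc _ ≤ (2 * (R + 2) * s ^ 2 + 1) * (C * s⁻¹ ^ 4) := by gcongr
      _ ≤ (2 * (4 * s) * s ^ 2 + s ^ 3) * (C * s⁻¹ ^ 4) := by gcongr; linarith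
      _ = _ := by field_simp; ring
  have h5 := mul_le_mul_of_nonneg_left (add_le_add h2 h3) hC2
  have h6 := mul_le_mul_of_nonneg_right h3 hI
  rw [mul_div_assoc 2]
  linarith

end IntA

open IntA in
theorem int_of (hIAEM : S_IAEM) (hISHELL : S_ISHELL) (hIAVG : S_IAVG) (hIPTW : S_IPTW)
    (hIPOLY : S_IPOLY) (hIFAT : S_IFAT) : S_INT := by
  rintro d S N θ κ K A - hS hκ hκθ hθ1 hK hom hN0 ⟨LN, hLN⟩ hAo hAn hA1 hW ⟨w, hw, f, hf⟩
  have hθ : 0 < θ := by linarith
  obtain ⟨L1, hL1⟩ := hIAVG d S hS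
  obtain ⟨W, C, hW2, hH2, hH3⟩ := hW (max LN L1)
  have hL : ∀ u, N u ≤ 1 → ‖u‖ ≤ max LN L1 := fun u h => (hLN u h).trans (le_max_left _ _)
  have hN := hIAEM d S N W _ hH2
  obtain ⟨Cs, hCs, hsh⟩ := hISHELL d N _ hom hL hN
  obtain ⟨c0, C2, hC2, hI⟩ := hL1 N W _ Cs (le_max_right _ _) hN0 hL hN hW2 hH2 hCs hsh
  obtain ⟨C1, hC1, hP⟩ := hIPTW d K C θ hK hθ (by linarith)
  have hsub : {u | N u < 1} ⊆ closedBall 0 (max LN L1) := fun u hu =>
    mem_closedBall_zero_iff.2 (hL u (le_of_lt hu))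
  have hnull : NullMeasurableSet {u | N u < 1} volume := by
    have := (nullMeasurableSet_restrict measurableSet_closedBall.nullMeasurableSet).1
      (nullMeasurableSet_lt hN (aemeasurable_const (b := (1 : ℝ))))
    rwa [Set.inter_eq_left.2 hsub] at this
  set μ : Measure (E d) := volume.restrict {u | N u < 1} with hμ
  have : IsFiniteMeasure μ := isFiniteMeasure_restrict.2
    ((measure_mono hsub).trans_lt (isCompact_closedBall _ _).measure_lt_top).ne
  have hWμ : MemLp W 2 μ := hW2.mono_measure (Measure.restrict_mono hsub le_rfl)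
  have hW1 : Integrable W μ := hWμ.integrable (by norm_num)
  have hdom : ∀ᵐ u ∂μ, N u < 1 ∧ 0 ≤ W u ∧
      ∀ T R : ℝ, 1 ≤ T → 1 ≤ R → |Ew S N T R u| ≤ (R + 2) * W u := by
    filter_upwards [ae_restrict_mem₀ hnull, ae_restrict_of_ae hH2] with u h1 h2
    exact ⟨h1, dom (h2 (hL u (le_of_lt h1)))⟩
  obtain ⟨c1, C3, hC3, hexp⟩ := expand hIPOLY (BB S) (DD d) w hw f c0
    (12 * C2 + ∫ u, 3 * W u ∂μ) hf fun T hT => by
      have hT' : (1 : ℝ) ≤ T := by exact_mod_cast hT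
      have h1 := (hI T 1 1 le_rfl hT one_pos).2
      have h2 := norm_integral_le_of_norm_le (f := Ew S N T (1 : ℕ)) (hW1.const_mul 3) (by
        filter_upwards [hdom] with u hu
        have := hu.2.2 T 1 hT' le_rfl
        norm_num at this ⊢
        exact this)
      have h3 : ((((1 : ℕ) : ℝ) + 2) ^ 2 * 1 ^ 2 / T + (((1 : ℕ) : ℝ) + 2) / 1) ≤ 12 := by
        have : (9 : ℝ) / T ≤ 9 := div_le_self (by norm_num) hT'
        norm_num; linarith
      have h4 := mul_le_mul_of_nonneg_left h3 hC2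
      rw [Real.norm_eq_abs] at h2
      have h5 := (abs_sub _ _).trans (add_le_add h2 (h1.trans h4))
      rw [sub_sub_cancel] at h5
      linarith
  have hm : Tendsto (fun n => w * n) atTop atTop := tendsto_id.const_mul_atTop' hw
  have hAs : A ⊆ {u | N u < 1} := hA1
  have hApos : 0 < μ.real A := by
    rw [hμ, Measure.real, Measure.restrict_apply hAo.measurableSet, Set.inter_eq_left.2 hAs]
    exact ENNReal.toReal_pos (hAo.measure_pos _ hAn).ne' (((measure_mono (hAs.trans hsub)).trans_lt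
      (isCompact_closedBall _ _).measure_lt_top).ne)
  set C5 := C3 + 20 * C2 + C1 * ((∫ u, W u ∂μ) + μ.real Set.univ) + 9 * |C| +
    8 * ∫ u, W u ^ 2 ∂μ with hC5
  have hbig := ((tendsto_rpow_atTop (show 0 < θ - κ by linarith)).comp
    (tendsto_natCast_atTop_atTop (R := ℝ))).eventually_gt_atTop (2 * C5 / μ.real A)
  obtain ⟨n0, h1, ⟨Bad, hB, hG⟩, h3, h4, h5⟩ := (hexp.and (hm.eventually
    (hH3.and (hP.and (hbig.and (eventually_ge_atTop 1)))))).exists
  set T := w * n0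
  have hT : (1 : ℝ) ≤ T := by exact_mod_cast h5
  have hT0 : (0 : ℝ) < T := by linarith
  set s : ℝ := (T : ℝ) ^ θ with hs
  have hs1 : 1 ≤ s := Real.one_le_rpow hT hθ.le
  set R := ⌈s⌉₊
  have hR1 : s ≤ R := Nat.le_ceil s
  have hR2 : (R : ℝ) ≤ 2 * s := by linarith [Nat.ceil_lt_add_one (show 0 ≤ s by linarith)]
  have hR3 : (1 : ℝ) ≤ R := hs1.trans hR1
  have hR4 : 1 ≤ R := by exact_mod_cast hR3
  have hs7 : s ^ 7 ≤ T := by
    rw [hs, ← Real.rpow_natCast, ← Real.rpow_mul hT0.le]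
    exact (Real.rpow_le_rpow_of_exponent_le hT (by norm_num; linarith)).trans_eq (Real.rpow_one _)
  have hRT : R ≤ T := Nat.ceil_le.2 ((le_self_pow₀ hs1 (by norm_num)).trans hs7)
  have ht : (T : ℝ) ^ (-θ) = s⁻¹ := Real.rpow_neg hT0.le θ
  have hk1 : (T : ℝ) ^ (-κ) ≤ 1 := Real.rpow_le_one_of_one_le_of_nonpos hT (by linarith)
  have hk0 : 0 < (T : ℝ) ^ (-κ) := Real.rpow_pos_of_pos hT0 _
  let B := toMeasurable volume Bad
  have hBm : MeasurableSet B := measurableSet_toMeasurable _ _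
  have hBv : μ.real B ≤ |C| * s⁻¹ ^ 4 := by
    refine ENNReal.toReal_le_of_le_ofReal (by positivity) ((Measure.restrict_le_self B).trans ?_)
    rw [measure_toMeasurable]
    refine hB.trans (ENNReal.ofReal_le_ofReal ?_)
    rw [← ht, ← Real.rpow_natCast, ← Real.rpow_mul hT0.le, show -θ * (4 : ℕ) = -(4 * θ) by
      push_cast; ring]
    exact mul_le_mul_of_nonneg_right (le_abs_self _) (by positivity)
  obtain ⟨i0, hJ⟩ := hI T R (s ^ 2) hR4 hRT (by positivity)
  have i1 : Integrable (fun u => C1 * (W u + 1) * s⁻¹) μ :=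
    ((hW1.add (integrable_const 1)).const_mul _).mul_const _
  have i2 : Integrable (A.indicator fun _ => (T : ℝ) ^ (-κ) / 2) μ :=
    (integrable_const _).indicator hAo.measurableSet
  have i3 : Integrable (B.indicator fun u => 2 * ((R : ℝ) + 2) * W u + 1) μ :=
    ((hW1.const_mul _).add (integrable_const 1)).indicator hBm
  have j1 : Integrable (fun u => Ew S N T R u + C1 * (W u + 1) * s⁻¹) μ := Integrable.add i0 i1
  have j2 : Integrable (fun u => Ew S N T R u + C1 * (W u + 1) * s⁻¹ -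
    A.indicator (fun _ => (T : ℝ) ^ (-κ) / 2) u) μ := j1.sub i2
  have hfat := hIFAT _ μ (fun n => Ew S N (w * n : ℕ) R) (fun u => ((R : ℝ) + 2) * W u)
    (fun u => Ew S N T R u + C1 * (W u + 1) * s⁻¹ - A.indicator (fun _ => (T : ℝ) ^ (-κ) / 2) u +
      B.indicator (fun u => 2 * ((R : ℝ) + 2) * W u + 1) u) c1
    (by
      filter_upwards [hm.eventually (eventually_ge_atTop R)] with n hn
      refine ⟨(hI _ R 1 hR4 hn one_pos).1, ?_⟩
      filter_upwards [hdom] with u hu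
      exact hu.2.2 _ _ (hR3.trans (by exact_mod_cast hn)) hR3)
    (hW1.const_mul _) (j2.add i3)
    (by
      filter_upwards [hdom] with u hu ε hε
      by_cases hb : u ∈ B
      · filter_upwards [hm.eventually (eventually_ge_atTop 1)] with n hn
        have e1 := abs_le.1 (hu.2.2 (w * n : ℕ) R (by exact_mod_cast hn) hR3)
        have e2 := abs_le.1 (hu.2.2 T R hT hR3)
        have e3 : A.indicator (fun _ => (T : ℝ) ^ (-κ) / 2) u ≤ 1 :=
          Set.indicator_apply_le' (fun _ => by linarith) fun _ => zero_le_one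
        have e4 : 0 ≤ C1 * (W u + 1) * s⁻¹ := by have := hu.2.1; positivity
        rw [Set.indicator_of_mem hb]
        linarith [e1.2, e2.1]
      · have := h3 S N W κ A u R (hG u trivial (fun h => hb (subset_toMeasurable _ _ h)) hu.1)
          hR1 hR2 ε hε
        filter_upwards [hm.eventually this] with n hn
        rw [Set.indicator_of_notMem hb, add_zero, ← ht]
        exact hn)
    (lim (fun T => ∫ u, Ew S N T R u ∂μ) (fun T => T * c0 - BB S T / (T : ℝ) ^ DD d) w hw c1 C2 C3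
      (R + 2) hexp (by
        filter_upwards [eventually_ge_atTop R] with T' h lam hl
        exact (hI T' R lam hR4 h hl).2))
  rw [integral_add j2 i3, integral_sub j1 i2, integral_add i0 i1,
    integral_indicator_const _ hAo.measurableSet, integral_mul_const, integral_const_mul,
    integral_add hW1 (integrable_const 1), integral_const, smul_eq_mul, smul_eq_mul,
    mul_one] at hfat
  have hbad := bad μ W hWμ B hBm (2 * ((R : ℝ) + 2)) (s ^ 2) (by positivity) (by positivity)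
  have har := arith (C1 := C1) (I1 := ∫ u, W u ∂μ) (m := μ.real Set.univ) hs1 hs7
    (Nat.cast_nonneg R) hR2 (abs_nonneg C) hC2 hC3
    (integral_nonneg (μ := μ) (f := fun u => W u ^ 2) fun u => sq_nonneg _) hBv
  have h6 : μ.real A * ((T : ℝ) ^ (-κ) / 2) ≤ C5 * s⁻¹ := by
    linarith [(abs_le.1 h1).2, (abs_le.1 hJ).2]
  simp only [Function.comp] at h4
  have h7 : (T : ℝ) ^ (-κ) = (T : ℝ) ^ (θ - κ) * s⁻¹ := by
    rw [← ht, ← Real.rpow_add hT0]; congr 1; ring
  rw [div_lt_iff₀ hApos] at h4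
  rw [h7] at h6
  have h8 : 0 < s⁻¹ := by positivity
  nlinarith

end Pool.Agent.P.MP_a0f0ad_al.Fi
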