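import Mathlib

/-! Integer sequences with a linear recurrence and polynomial growth are quasi-polynomial. -/

namespace Pool.Agent.P.MP_a0f0ad_al.Fi.RatA

open Polynomial Finset

/-- The shift. -/
def sh (K : Type) [CommRing K] : Module.End K (ℕ → K) where
  toFun u := fun n => u (n + 1)
  map_add' _ _ := rfl
  map_smul' _ _ := rfl

theorem sh_pow {K : Type} [CommRing K] (k : ℕ) (u : ℕ → K) (n : ℕ) :
    (sh K ^ k) u n = u (n + k) := by
  induction k generalizing u with
  | zero => simp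
  | succ k ih => rw [pow_succ, Module.End.mul_apply, ih]; rfl

theorem act_apply {K : Type} [CommRing K] (p : K[X]) (u : ℕ → K) (n r : ℕ)
    (hr : p.natDegree < r) :
    aeval (sh K) p u n = ∑ i ∈ range r, p.coeff i * u (n + i) := by
  rw [aeval_eq_sum_range' hr, LinearMap.sum_apply, Finset.sum_apply]
  simp [sh_pow]

theorem act_map {K L : Type} [CommRing K] [CommRing L] (f : K →+* L) (p : K[X]) (u : ℕ → K)
    (n : ℕ) : aeval (sh L) (p.map f) (fun k => f (u k)) n = f (aeval (sh K) p u n) := by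
  rw [act_apply _ _ _ (p.natDegree + 1) (Nat.lt_succ_of_le natDegree_map_le),
    act_apply _ _ _ _ (Nat.lt_succ_self _), map_sum]
  simp

theorem act_mul {K : Type} [CommRing K] (p q : K[X]) (u : ℕ → K) :
    aeval (sh K) (p * q) u = aeval (sh K) p (aeval (sh K) q u) := by
  rw [map_mul, Module.End.mul_apply]

/-- A monic integral recurrence. -/
theorem exists_monic (s : ℕ → ℤ) (m : ℤ[X]) (hm : m ≠ 0) (h : aeval (sh ℤ) m s = 0) :
    ∃ F : ℤ[X], F.Monic ∧ aeval (sh ℤ) F s = 0 := by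
  let Λ : Submodule ℤ (ℕ → ℤ) := LinearMap.ker (aeval (sh ℤ) m)
  have hinv : ∀ u ∈ Λ, sh ℤ u ∈ Λ := by
    intro u hu
    have : aeval (sh ℤ) (m * X) u = aeval (sh ℤ) (X * m) u := by rw [mul_comm]
    rw [act_mul, act_mul, aeval_X, LinearMap.mem_ker.1 hu, map_zero] at this
    exact this
  let ev : Λ →ₗ[ℤ] (Fin m.natDegree → ℤ) :=
    { toFun := fun u i => u.1 i, map_add' := fun _ _ => rfl, map_smul' := fun _ _ => rfl }
  have hev : Function.Injective ev := by
    rw [injective_iff_map_eq_zero]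
    intro u hu
    have key : ∀ n, u.1 n = 0 := by
      intro n
      induction n using Nat.strong_induction_on with
      | _ n ih =>
        by_cases hn : n < m.natDegree
        · exact congrFun hu ⟨n, hn⟩
        · have h1 := congrFun (LinearMap.mem_ker.1 u.2) (n - m.natDegree)
          rw [act_apply _ _ _ _ (Nat.lt_succ_self _), sum_range_succ,
            Finset.sum_eq_zero (fun i hi => by
              rw [ih _ (by have := mem_range.1 hi; omega), mul_zero]), zero_add,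
            Nat.sub_add_cancel (not_lt.1 hn)] at h1
          exact (mul_eq_zero.1 h1).resolve_left (leadingCoeff_ne_zero.2 hm)
    exact Subtype.ext (funext key)
  have : Module.Finite ℤ Λ := Module.Finite.of_injective ev hev
  obtain ⟨F, hF, hF0⟩ := LinearMap.exists_monic_and_aeval_eq_zero ℤ ((sh ℤ).restrict hinv)
  refine ⟨F, hF, ?_⟩
  have hp : ∀ (k : ℕ) (u : Λ), ((((sh ℤ).restrict hinv) ^ k) u).1 = (sh ℤ ^ k) u.1 := by
    intro k
    induction k with
    | zero => intro u; rfl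
    | succ k ih => intro u; rw [pow_succ, pow_succ, Module.End.mul_apply, ih]; rfl
  have h2 := congrArg Subtype.val (LinearMap.congr_fun hF0 ⟨s, h⟩)
  rw [aeval_eq_sum_range, LinearMap.sum_apply, Submodule.coe_sum] at h2
  rw [aeval_eq_sum_range, LinearMap.sum_apply]
  simpa [hp] using h2

/-- The rational annihilator. -/
def ann (s : ℕ → ℚ) : Ideal ℚ[X] where
  carrier := {p | aeval (sh ℚ) p s = 0}
  add_mem' := by
    intro a b ha hb
    simp only [Set.mem_ofPred_eq, map_add, LinearMap.add_apply] at *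
    rw [ha, hb, add_zero]
  zero_mem' := by simp
  smul_mem' := by
    intro c a ha
    simp only [Set.mem_ofPred_eq, smul_eq_mul, act_mul] at *
    rw [ha, map_zero]

theorem act_bound (h : ℂ[X]) (u : ℕ → ℂ) (C : ℝ) (D : ℕ)
    (hu : ∀ n, ‖u n‖ ≤ C * (n + 1) ^ D) :
    ∃ C' : ℝ, ∀ n, ‖aeval (sh ℂ) h u n‖ ≤ C' * (n + 1) ^ D := by
  have hC : 0 ≤ C := by simpa using (norm_nonneg _).trans (hu 0)
  refine ⟨∑ i ∈ range (h.natDegree + 1), ‖h.coeff i‖ * (C * (i + 1) ^ D), fun n => ?_⟩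
  rw [act_apply _ _ _ _ (Nat.lt_succ_self _), sum_mul]
  refine (norm_sum_le _ _).trans (sum_le_sum fun i _ => ?_)
  rw [norm_mul, mul_assoc]
  refine mul_le_mul_of_nonneg_left ((hu _).trans ?_) (norm_nonneg _)
  rw [mul_assoc, ← mul_pow]
  refine mul_le_mul_of_nonneg_left (pow_le_pow_left₀ (by positivity) ?_ _) hC
  push_cast
  nlinarith [Nat.cast_nonneg (α := ℝ) n, Nat.cast_nonneg (α := ℝ) i]

theorem eig_zero (t : ℕ → ℂ) (l : ℂ) (hl : 1 < ‖l‖) (ht : ∀ n, t (n + 1) = l * t n) (C : ℝ)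
    (D : ℕ) (hb : ∀ n, ‖t n‖ ≤ C * (n + 1) ^ D) : t = 0 := by
  have h1 : ∀ n, t n = l ^ n * t 0 := by
    intro n
    induction n with
    | zero => simp
    | succ n ih => rw [ht, ih]; ring
  have h0 : ‖t 0‖ ≤ 0 := by
    have h2 := (tendsto_pow_const_div_const_pow_of_one_lt D hl).comp (Filter.tendsto_add_atTop_nat 1)
    have h3 := h2.const_mul (C * ‖l‖)
    rw [mul_zero] at h3
    refine ge_of_tendsto' h3 fun n => ?_
    have h4 := hb n
    rw [h1, norm_mul, norm_pow] at h4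
    have hp : 0 < ‖l‖ := by linarith
    simp only [Function.comp, Nat.cast_add, Nat.cast_one]
    rw [← mul_div_assoc, le_div_iff₀ (by positivity), pow_succ]
    nlinarith
  have : t 0 = 0 := norm_le_zero_iff.1 h0
  funext n
  rw [h1, this, mul_zero]; rfl

theorem root_le (s : ℕ → ℚ) (m : ℚ[X]) (hm : m.Monic) (hs : ∀ p, p ∈ ann s ↔ m ∣ p) (C : ℝ)
    (D : ℕ) (hb : ∀ n, |(s n : ℝ)| ≤ C * (n + 1) ^ D) (l : ℂ) (hl : aeval l m = 0) :
    ‖l‖ ≤ 1 := by
  by_contra hc
  push Not at hc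
  have hr : (m.map (algebraMap ℚ ℂ)).IsRoot l := by rwa [IsRoot, eval_map_algebraMap]
  obtain ⟨h, hh⟩ := dvd_iff_isRoot.2 hr
  have hmon : h.Monic := (monic_X_sub_C l).of_mul_monic_left (hh ▸ hm.map _)
  have hdeg : h.natDegree < m.natDegree := by
    have := congrArg natDegree hh
    rw [hm.natDegree_map, (monic_X_sub_C l).natDegree_mul hmon, natDegree_X_sub_C] at this
    omega
  set u : ℕ → ℂ := fun k => algebraMap ℚ ℂ (s k) with hu
  have hub : ∀ n, ‖u n‖ ≤ C * (n + 1) ^ D := fun n => by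
    have : u n = (((s n : ℚ) : ℝ) : ℂ) := by simp [hu]
    rw [this, Complex.norm_real]; exact hb n
  obtain ⟨C', hC'⟩ := act_bound h u C D hub
  have h0 : aeval (sh ℂ) h u = 0 := by
    refine eig_zero _ l hc (fun n => ?_) C' D hC'
    have h1 := act_map (algebraMap ℚ ℂ) m s n
    rw [show aeval (sh ℚ) m s = 0 from (hs m).2 dvd_rfl, hh, act_mul] at h1
    simp only [map_sub, aeval_X, aeval_C, LinearMap.sub_apply, Pi.sub_apply, Pi.zero_apply,
      map_zero, Module.algebraMap_end_apply, Pi.smul_apply, smul_eq_mul] at h1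
    exact sub_eq_zero.1 h1
  obtain ⟨φ, hφ⟩ := LinearMap.exists_leftInverse_of_injective (Algebra.linearMap ℚ ℂ)
    (LinearMap.ker_eq_bot.2 (algebraMap ℚ ℂ).injective)
  have hφ1 : φ 1 = 1 := by simpa using LinearMap.congr_fun hφ 1
  let g : ℚ[X] := ∑ i ∈ range (h.natDegree + 1), monomial i (φ (h.coeff i))
  have hg : ∀ i, i ≤ h.natDegree → g.coeff i = φ (h.coeff i) := by
    intro i hi
    simp only [g, finsetSum_coeff, coeff_monomial]
    rw [Finset.sum_ite_eq' (range _) i, if_pos (mem_range.2 (by omega))]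
  have hgd : g.natDegree ≤ h.natDegree :=
    natDegree_sum_le_of_forall_le _ _ fun i hi =>
      (natDegree_monomial_le _).trans (by have := mem_range.1 hi; omega)
  have hg0 : g ≠ 0 := by
    intro e
    have := hg _ le_rfl
    rw [e, coeff_zero, hmon.coeff_natDegree, hφ1] at this
    exact zero_ne_one this
  have hga : g ∈ ann s := by
    funext n
    have h1 := congrArg φ (congrFun h0 n)
    rw [act_apply _ _ _ _ (Nat.lt_succ_self _), map_sum, Pi.zero_apply, map_zero] at h1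
    rw [act_apply _ _ _ _ (Nat.lt_succ_of_le hgd), Pi.zero_apply, ← h1]
    refine sum_congr rfl fun i hi => ?_
    rw [hg i (by have := mem_range.1 hi; omega), hu, mul_comm (h.coeff i), ← Algebra.smul_def,
      map_smul, smul_eq_mul, mul_comm]
  have := natDegree_le_of_dvd ((hs g).1 hga) hg0
  omega

open IntermediateField in
theorem kron (m : ℚ[X]) (F : ℤ[X]) (hF : F.Monic) (hd : m ∣ F.map (algebraMap ℤ ℚ))
    (hr : ∀ l : ℂ, aeval l m = 0 → ‖l‖ ≤ 1) (z : ℂ) (hz : aeval z m = 0) (hz0 : z ≠ 0) :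
    ∃ n, 0 < n ∧ z ^ n = 1 := by
  have hi : IsIntegral ℤ z := by
    refine ⟨F, hF, ?_⟩
    obtain ⟨c, hc⟩ := hd
    rw [← aeval_def, ← aeval_map_algebraMap ℚ, hc, map_mul, hz, zero_mul]
  let K := ℚ⟮z⟯
  let : NumberField K :=
    { to_charZero := ℚ⟮z⟯.charZero
      to_finiteDimensional := adjoin.finiteDimensional hi.tower_top }
  let y : K := ⟨z, mem_adjoin_simple_self ℚ z⟩
  suffices ∃ (n : ℕ) (_ : 0 < n), y ^ n = 1 by
    obtain ⟨n, hn₀, hn₁⟩ := this
    exact ⟨n, hn₀, congrArg (algebraMap K ℂ) hn₁⟩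
  refine NumberField.Embeddings.pow_eq_one_of_norm_le_one (x := y) K ℂ (Subtype.coe_ne_coe.mp hz0)
    (coe_isIntegral_iff.mp hi) fun φ => hr _ ?_
  have H (ψ : K →+* ℂ) : ψ ((aeval y) m) = (aeval (ψ y)) m :=
    (aeval_algHom_apply ψ.toRatAlgHom y m).symm
  rw [← H, map_eq_zero_iff _ φ.injective,
    ← map_eq_zero_iff _ (FaithfulSMul.algebraMap_injective ↥K ℂ), H]
  exact hz

theorem dvd_pow (p g : ℂ[X]) (hp : p.Monic) (h : ∀ z ∈ p.roots, g.IsRoot z) :
    p ∣ g ^ p.roots.card := by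
  conv_lhs => rw [(IsAlgClosed.splits p).eq_prod_roots_of_monic hp]
  rw [← Multiset.prod_replicate, ← Multiset.map_const']
  exact Multiset.prod_dvd_prod_of_dvd _ _ fun z hz => dvd_iff_isRoot.2 (h z hz)

/-- The differences of step `w` vanish. -/
theorem exists_period (s : ℕ → ℤ) (m0 : ℤ[X]) (hm0 : m0 ≠ 0) (h0 : aeval (sh ℤ) m0 s = 0)
    (C : ℝ) (D : ℕ) (hb : ∀ n, |(s n : ℝ)| ≤ C * (n + 1) ^ D) :
    ∃ w e : ℕ, 0 < w ∧ aeval (sh ℚ) ((X ^ w * (X ^ w - 1)) ^ e : ℚ[X]) (fun n => (s n : ℚ)) = 0 := by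
  classical
  obtain ⟨F, hF, hFs⟩ := exists_monic s m0 hm0 h0
  set u : ℕ → ℚ := fun n => (s n : ℚ) with hu
  have hFa : F.map (algebraMap ℤ ℚ) ∈ ann u := by
    funext n
    have := act_map (algebraMap ℤ ℚ) F s n
    rw [hFs] at this
    simpa using this
  have hF0 : F.map (algebraMap ℤ ℚ) ≠ 0 := (hF.map _).ne_zero
  let m1 := Submodule.IsPrincipal.generator (ann u)
  have hm1 : ∀ p, p ∈ ann u ↔ m1 ∣ p := fun p => Submodule.IsPrincipal.mem_iff_generator_dvd _
  have hm10 : m1 ≠ 0 := fun e => hF0 (zero_dvd_iff.1 (e ▸ (hm1 _).1 hFa))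
  let m := normalize m1
  have hm : m.Monic := monic_normalize hm10
  have hs : ∀ p, p ∈ ann u ↔ m ∣ p := fun p => by rw [hm1, normalize_dvd_iff]
  have hr := root_le u m hm hs C D (fun n => by simpa [hu] using hb n)
  have hk := kron m F hF ((hs _).1 hFa) hr
  let mc := m.map (algebraMap ℚ ℂ)
  have hex : ∀ z : ℂ, ∃ n, 0 < n ∧ (z ∈ mc.roots → z ≠ 0 → z ^ n = 1) := by
    intro z
    by_cases hz : z ∈ mc.roots ∧ z ≠ 0
    · obtain ⟨n, h1, h2⟩ := hk z (by
        have := (mem_roots'.1 hz.1).2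
        rwa [IsRoot, eval_map_algebraMap] at this) hz.2
      exact ⟨n, h1, fun _ _ => h2⟩
    · exact ⟨1, one_pos, fun a b => (hz ⟨a, b⟩).elim⟩
  choose o ho1 ho2 using hex
  let w := ∏ z ∈ mc.roots.toFinset, o z
  have hw : 0 < w := prod_pos fun z _ => ho1 z
  refine ⟨w, mc.roots.card, hw, (hs _).2 ?_⟩
  rw [← map_dvd_map' (algebraMap ℚ ℂ)]
  have := dvd_pow mc (X ^ w * (X ^ w - 1)) (hm.map _) fun z hz => by
    rw [IsRoot, eval_mul, eval_sub, eval_pow, eval_X, eval_one]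
    by_cases hz0 : z = 0
    · rw [hz0, zero_pow hw.ne', zero_mul]
    · obtain ⟨c, hc⟩ := dvd_prod_of_mem o (Multiset.mem_toFinset.2 hz)
      rw [show w = o z * c from hc, pow_mul, ho2 z hz hz0, one_pow, sub_self, mul_zero]
  simpa using this

end Pool.Agent.P.MP_a0f0ad_al.Fi.RatA
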