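import Pool.Agent.P.MP_a0f0ad_al.Fi.I.Iface
import Pool.Agent.P.MP_a0f0ad_al.Fi.I.Rat1

/-! Step RAT of the filiform project. -/

namespace Pool.Agent.P.MP_a0f0ad_al.Fi

open Finset MeasureTheory Metric

namespace RatA

open Polynomial

theorem clear (s : ℕ → ℤ) (m : ℚ[X]) (hm : m ≠ 0)
    (h : aeval (sh ℚ) m (fun n => (s n : ℚ)) = 0) :
    ∃ m0 : ℤ[X], m0 ≠ 0 ∧ aeval (sh ℤ) m0 s = 0 := by
  obtain ⟨b, -, hb⟩ := IsLocalization.integerNormalization_spec (nonZeroDivisors ℤ) m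
  refine ⟨IsLocalization.integerNormalization (nonZeroDivisors ℤ) m,
    fun e => hm (IsFractionRing.integerNormalization_eq_zero_iff.1 e), funext fun n => ?_⟩
  have h1 := act_map (algebraMap ℤ ℚ) (IsLocalization.integerNormalization (nonZeroDivisors ℤ) m)
    s n
  rw [hb, zsmul_eq_mul, act_mul] at h1
  simp only [eq_intCast] at h1
  rw [h, map_zero, Pi.zero_apply] at h1
  rw [Pi.zero_apply]
  exact_mod_cast h1.symm

theorem recur (β : ℕ → ℚ) (P Q : ℚ[X]) (hQ : Q.coeff 0 ≠ 0)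
    (h : (Q : PowerSeries ℚ) * PowerSeries.mk β = (P : PowerSeries ℚ)) :
    ∃ m : ℚ[X], m ≠ 0 ∧ aeval (sh ℚ) m β = 0 := by
  have hQ0 : Q ≠ 0 := fun e => hQ (by simp [e])
  refine ⟨Q.reverse * X ^ (P.natDegree + 1), mul_ne_zero (reverse_eq_zero.not.2 hQ0)
    (pow_ne_zero _ X_ne_zero), funext fun n => ?_⟩
  rw [act_mul, act_apply _ _ _ (Q.natDegree + 1) (Nat.lt_succ_of_le (reverse_natDegree_le Q))]
  have h1 := congrArg (PowerSeries.coeff (n + Q.natDegree + (P.natDegree + 1))) h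
  rw [coeff_coe, coeff_eq_zero_of_natDegree_lt (by omega), PowerSeries.coeff_mul,
    Finset.Nat.sum_antidiagonal_eq_sum_range_succ_mk] at h1
  simp only [coeff_coe, PowerSeries.coeff_mk] at h1
  rw [← Finset.sum_subset (s₁ := range (Q.natDegree + 1)) (by
      intro i hi; simp only [mem_range] at hi ⊢; omega) (by
      intro i _ hi
      rw [coeff_eq_zero_of_natDegree_lt (by simp only [mem_range] at hi; omega), zero_mul]),
    ← Finset.sum_range_reflect] at h1
  rw [Pi.zero_apply, ← h1]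
  refine sum_congr rfl fun i hi => ?_
  have hi' : i ≤ Q.natDegree := by simpa [Nat.lt_succ_iff] using hi
  rw [coeff_reverse, revAt_le hi', map_pow, aeval_X, sh_pow, Nat.add_sub_cancel]
  congr 2
  omega

theorem newton (u : ℕ → ℚ) (w e : ℕ)
    (h : aeval (sh ℚ) ((X ^ w * (X ^ w - 1)) ^ e : ℚ[X]) u = 0) :
    ∃ f : ℚ[X], ∀ n, u (w * (e + n)) = f.eval (n : ℚ) := by
  have h1 : ∀ (k : ℕ) (v : ℕ → ℚ),
      aeval (sh ℚ) ((X ^ w - 1) ^ k : ℚ[X]) v = (fwdDiff w)^[k] v := by
    intro k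
    induction k with
    | zero => intro v; simp
    | succ k ih =>
      intro v
      rw [pow_succ', act_mul, ih, Function.iterate_succ_apply']
      funext n
      simp [fwdDiff, sh_pow]
  have h2 : ∀ k, e ≤ k → (fwdDiff w)^[k] u (w * e) = 0 := by
    intro k hk
    obtain ⟨j, rfl⟩ := Nat.exists_eq_add_of_le hk
    have h3 : aeval (sh ℚ) ((X ^ w - 1) ^ j * (X ^ w * (X ^ w - 1)) ^ e : ℚ[X]) u = 0 := by
      rw [act_mul, h, map_zero]
    have h4 : ((X ^ w - 1) ^ j * (X ^ w * (X ^ w - 1)) ^ e : ℚ[X]) =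
        X ^ (w * e) * (X ^ w - 1) ^ (e + j) := by rw [mul_pow, ← pow_mul, pow_add]; ring
    have h5 := congrFun h3 0
    rwa [h4, act_mul, map_pow, aeval_X, sh_pow, h1, zero_add] at h5
  refine ⟨∑ k ∈ range e, C ((fwdDiff w)^[k] u (w * e) / k.factorial) * descPochhammer ℚ k,
    fun n => ?_⟩
  have h6 := shift_eq_sum_fwdDiff_iter w u n (w * e)
  rw [show w * (e + n) = w * e + n • w by rw [smul_eq_mul]; ring, h6, eval_finsetSum]
  have h7 : ∀ k, eval (n : ℚ) (C ((fwdDiff w)^[k] u (w * e) / k.factorial) * descPochhammer ℚ k) =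
      n.choose k • (fwdDiff w)^[k] u (w * e) := by
    intro k
    have : (k.factorial : ℚ) ≠ 0 := by positivity
    rw [eval_mul, eval_C, descPochhammer_eval_eq_descFactorial,
      Nat.descFactorial_eq_factorial_mul_choose, nsmul_eq_mul]
    push_cast
    field_simp
  simp only [h7]
  rw [Finset.sum_subset (s₂ := range (n + 1 + e)) (by
      intro i hi; simp only [mem_range] at hi ⊢; omega) (by
      intro i _ hi
      rw [Nat.choose_eq_zero_of_lt (by simp only [mem_range] at hi; omega), zero_smul]),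
    Finset.sum_subset (s₁ := range e) (s₂ := range (n + 1 + e)) (by
      intro i hi; simp only [mem_range] at hi ⊢; omega) (by
      intro i _ hi
      rw [h2 i (by simp only [mem_range] at hi; omega), smul_zero])]

end RatA

open RatA Polynomial in
theorem p_RAT :
    S_RAT := by
  rintro β ⟨C, D, hb⟩ ⟨P, Q, hQ, h⟩
  obtain ⟨m, hm, hm1⟩ := recur _ P Q hQ h
  let s : ℕ → ℤ := fun n => ∑ i ∈ range n, (β i : ℤ)
  have hs : aeval (RatA.sh ℚ) (m * (X - 1)) (fun n => (s n : ℚ)) = 0 := by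
    rw [act_mul, ← hm1]
    congr 1
    funext n
    simp [RatA.sh, s, sum_range_succ]
  obtain ⟨m0, h0, h1⟩ := clear s _ (mul_ne_zero hm (X_sub_C_ne_zero 1)) hs
  obtain ⟨w, e, hw, h2⟩ := exists_period s m0 h0 h1 C (D + 1) fun n => by
    have h3 : (s n : ℝ) = ∑ i ∈ range n, (β i : ℝ) := by simp [s]
    rw [h3, abs_of_nonneg (by positivity)]
    calc ∑ i ∈ range n, (β i : ℝ) ≤ ∑ _i ∈ range n, (C : ℝ) * (n + 1) ^ D := by
          refine sum_le_sum fun i hi => ?_
          have h4 : (β i : ℝ) ≤ C * (i + 1) ^ D := by exact_mod_cast hb i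
          have h5 : (i : ℝ) ≤ n := by exact_mod_cast (mem_range.1 hi).le
          refine h4.trans ?_
          gcongr
      _ = n * (C * (n + 1) ^ D) := by simp
      _ ≤ (n + 1) * (C * (n + 1) ^ D) := by gcongr; linarith
      _ = _ := by ring
  obtain ⟨f, hf⟩ := newton _ w e h2
  refine ⟨w, hw, (f.map (algebraMap ℚ ℝ)).comp (X - Polynomial.C (e : ℝ)), ?_⟩
  filter_upwards [Filter.eventually_ge_atTop e] with n hn
  obtain ⟨k, rfl⟩ := Nat.exists_eq_add_of_le hn
  have h3 := congrArg (algebraMap ℚ ℝ) (hf k)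
  rw [← eval₂_at_apply, ← eval_map] at h3
  simp only [eval_comp, eval_sub, eval_X, eval_C, Nat.cast_add, add_sub_cancel_left]
  simpa [s] using h3

end Pool.Agent.P.MP_a0f0ad_al.Fi
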