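import Pool.Agent.P.MP_a0f0ad_al.Fi.I.Iface

/-! Step WL2 of the filiform project. -/

namespace Pool.Agent.P.MP_a0f0ad_al.Fi

open Finset MeasureTheory Metric

namespace Wl2A

variable {d : ℕ}

theorem ae_ne (d : ℕ) : ∀ᵐ u : E d, ∀ j, u.2 j ≠ 0 := by
  have h : ∀ᵐ y : Fin d → ℝ, ∀ j, y j ≠ 0 :=
    ae_all_iff.2 fun j => Measure.ae_eval_ne (fun _ : Fin d => (volume : Measure ℝ)) j 0
  exact (Measure.quasiMeasurePreserving_snd (μ := (volume : Measure ℝ))
    (ν := (volume : Measure (Fin d → ℝ)))).ae h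

theorem meas_ell : Measurable (ell : E d → ℝ) := by
  unfold ell
  refine Measurable.max (by fun_prop) (Measurable.iSup fun j => ?_)
  split_ifs
  · exact measurable_const
  · fun_prop

theorem le_ell (u : E d) (j : Fin d) (hj : (j : ℕ) ≠ 0) :
    |u.2 j| ^ (((j : ℕ) : ℝ)⁻¹) ≤ ell u := by
  refine le_trans ?_ (le_max_right _ _)
  refine le_trans ?_ (le_ciSup (Finite.bddAbove_range _) j)
  simp [hj]

theorem ell_nonneg (u : E d) : 0 ≤ ell u := (abs_nonneg _).trans (le_max_left _ _)

theorem abs_le_ell (u : E d) (j : Fin d) (hj : (j : ℕ) ≠ 0) : |u.2 j| ≤ ell u ^ (j : ℕ) := by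
  have h := pow_le_pow_left₀ (by positivity) (le_ell u j hj) (j : ℕ)
  rwa [Real.rpow_inv_natCast_pow (abs_nonneg _) hj] at h

theorem ell_pos (hd : 9 ≤ d) {u : E d} (h : ∀ j, u.2 j ≠ 0) : 0 < ell u :=
  lt_of_lt_of_le (Real.rpow_pos_of_pos (abs_pos.2 (h ⟨1, by omega⟩)) _)
    (le_ell u ⟨1, by omega⟩ (by simp))

/-- the exponents -/
noncomputable def ex (d : ℕ) (j : Fin d) : ℝ := if (j : ℕ) = 0 then 0 else 4 / ((d : ℝ) - 1)

theorem ex_lt (hd : 9 ≤ d) (j : Fin d) : ex d j < 1 := by
  have : (9 : ℝ) ≤ d := by exact_mod_cast hd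
  unfold ex
  split_ifs
  · norm_num
  · rw [div_lt_one (by linarith)]
    linarith

theorem sum_id (d : ℕ) : ∑ j : Fin d, ((j : ℕ) : ℝ) = d * (d - 1) / 2 := by
  rw [Fin.sum_univ_eq_sum_range (fun j => (j : ℝ))]
  induction d with
  | zero => simp
  | succ d ih => rw [Finset.sum_range_succ, ih]; push_cast; ring

theorem prod_le (hd : 9 ≤ d) {u : E d} (h : ∀ j, u.2 j ≠ 0) :
    ∏ j, |u.2 j| ^ ex d j ≤ (ell u ^ d) ^ 2 := by
  have h9 : (9 : ℝ) ≤ d := by exact_mod_cast hd
  have hp := ell_pos hd h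
  have hs : (0 : ℝ) ≤ 4 / ((d : ℝ) - 1) := div_nonneg (by norm_num) (by linarith)
  calc ∏ j, |u.2 j| ^ ex d j
      ≤ ∏ j : Fin d, ell u ^ (((j : ℕ) : ℝ) * (4 / ((d : ℝ) - 1))) := by
        refine Finset.prod_le_prod (fun j _ => by positivity) fun j _ => ?_
        unfold ex
        split_ifs with hj
        · simp [hj]
        · rw [Real.rpow_mul hp.le, Real.rpow_natCast]
          exact Real.rpow_le_rpow (abs_nonneg _) (abs_le_ell u j hj) hs
    _ = (ell u ^ d) ^ 2 := by
        rw [← Real.rpow_sum_of_pos hp, ← Finset.sum_mul, sum_id, ← pow_mul, ← Real.rpow_natCast]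
        congr 1
        have : (d : ℝ) - 1 ≠ 0 := by linarith
        push_cast
        field_simp
        norm_num

theorem int_one {e : ℝ} (he : e < 1) (L : ℝ) :
    Integrable (fun x : ℝ => |x| ^ (-e)) (volume.restrict (closedBall 0 L)) := by
  have h : LocallyIntegrable (fun x : ℝ => |x| ^ (-e)) volume :=
    locallyIntegrable_of_norm_le_rpow (C := 1) (α := e) (by simp) (by simpa using he)
      (Filter.Eventually.of_forall fun x => by
        rw [Real.norm_of_nonneg (by positivity), one_mul, Real.norm_eq_abs])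
      (Measurable.aestronglyMeasurable (by fun_prop))
  exact h.integrableOn_isCompact (isCompact_closedBall 0 L)

theorem int_prod (hd : 9 ≤ d) (L : ℝ) :
    Integrable (fun u : E d => ∏ j, |u.2 j| ^ (-ex d j)) (volume.restrict (closedBall 0 L)) := by
  rcases lt_or_ge L 0 with hL | hL
  · simp [closedBall_eq_empty.2 hL]
  have h1 : Integrable (fun y : Fin d → ℝ => ∏ j, |y j| ^ (-ex d j))
      (volume.restrict (closedBall 0 L)) := by
    rw [closedBall_pi _ hL, volume_pi, Measure.restrict_pi_pi]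
    exact Integrable.fintype_prod (f := fun j (x : ℝ) => |x| ^ (-ex d j)) fun j =>
      int_one (ex_lt hd j) L
  haveI : IsFiniteMeasure ((volume : Measure ℝ).restrict (closedBall 0 L)) :=
    isFiniteMeasure_restrict.2 measure_closedBall_lt_top.ne
  have h2 := h1.comp_snd ((volume : Measure ℝ).restrict (closedBall 0 L))
  rw [Measure.prod_restrict, closedBall_prod_same] at h2
  exact h2

end Wl2A

open Wl2A in
theorem p_WL2 :
    S_WL2 := by
  intro d hd
  refine ⟨(ae_ne d).mono fun u h => ell_pos hd h, fun L C => ?_⟩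
  have hm : Measurable fun u : E d => C / ell u ^ d := measurable_const.div (meas_ell.pow_const d)
  rw [memLp_two_iff_integrable_sq hm.aestronglyMeasurable]
  refine ((int_prod hd L).const_mul (C ^ 2)).mono' (hm.pow_const 2).aestronglyMeasurable
    (ae_restrict_of_ae ((ae_ne d).mono fun u h => ?_))
  have hp : 0 < ∏ j, |u.2 j| ^ ex d j :=
    Finset.prod_pos fun j _ => Real.rpow_pos_of_pos (abs_pos.2 (h j)) _
  rw [Real.norm_of_nonneg (sq_nonneg _), div_pow]
  simp only [Real.rpow_neg (abs_nonneg _), Finset.prod_inv_distrib]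
  rw [← div_eq_mul_inv]
  exact div_le_div_of_nonneg_left (sq_nonneg _) hp (prod_le hd h)

end Pool.Agent.P.MP_a0f0ad_al.Fi
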